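import Pool.Agent.P.MP_1206ce_ag.LV.Main

/-! Doubling the vertices along a Fitting decomposition. -/

open scoped Topology
open Filter Set

set_option linter.unusedSectionVars false

noncomputable section

namespace Pool.Agent.HK

namespace HD

variable {β I Ar τ Λ Λ' : Type} [Fintype β] [DecidableEq β] [Fintype I] [DecidableEq I] [Fintype Ar]
  [DecidableEq Ar] [Fintype τ] [DecidableEq τ] [DecidableEq Λ] [DecidableEq Λ'] (D : HD β I Ar τ)

variable {th : I → ℤ} {key : (I → ℕ) → ℤ} {G : Gam Ar → Bool} {sl : β → Λ} {p q : Finset β}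
  {a : Matrix β β ℂ} {P : Set (UU β Ar)}

/-- The quiver with vertices `I × Bool`; every arrow has four components. -/
def dbl (q : Finset β) : HD β (I × Bool) (Ar × Bool × Bool) τ where
  v := fun k => (D.v k, decide (k ∈ q))
  s := fun h => (D.s h.1, h.2.1)
  t := fun h => (D.t h.1, h.2.2)
  w := fun h => D.w h.1
  bb := D.bb
  hh := D.hh
  bh := D.bh
  wb := fun h => D.wb h.1
  wh := fun h => D.wh h.1

/-- The projectors to the two blocks. -/
def Dbl_E (q : Finset β) (e : Bool) : Matrix β β ℂ :=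
  Matrix.diagonal fun k => if decide (k ∈ q) = e then 1 else 0

theorem Dbl_E_sum : ∑ e, Dbl_E q e = 1 := by
  ext l k
  by_cases h : l = k
  · subst h
    by_cases hl : l ∈ q <;> simp [Dbl_E, hl]
  · simp [Dbl_E, h]

theorem Dbl_E_idem (e : Bool) : Dbl_E q e * Dbl_E q e = Dbl_E q e := by
  rw [Dbl_E, Matrix.diagonal_mul_diagonal]
  congr 1
  funext k
  split_ifs <;> simp

theorem Dbl_blk (e e' : Bool) (M : Matrix β β ℂ) (l k : β) :
    (Dbl_E q e' * M * Dbl_E q e) l k =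
      if decide (l ∈ q) = e' ∧ decide (k ∈ q) = e then M l k else 0 := by
  rw [Dbl_E, Dbl_E, Matrix.mul_diagonal, Matrix.diagonal_mul]
  by_cases h1 : decide (l ∈ q) = e' <;> by_cases h2 : decide (k ∈ q) = e <;> simp [h1, h2]

theorem Dbl_E_mulVec (e : Bool) (z : β → ℂ) (k : β) :
    (Dbl_E q e).mulVec z k = if decide (k ∈ q) = e then z k else 0 := by
  rw [Dbl_E, Matrix.mulVec_diagonal]
  split_ifs <;> simp

theorem Dbl_sum_blk (M : Matrix β β ℂ) : ∑ e, ∑ e', Dbl_E q e' * M * Dbl_E q e = M := by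
  simp only [← Finset.sum_mul, ← Finset.mul_sum, Dbl_E_sum, Matrix.one_mul, Matrix.mul_one]

theorem Dbl_sum_blk' (M : Matrix β β ℂ) : ∑ e, ∑ e', Dbl_E q e * M * Dbl_E q e' = M := by
  simp only [← Finset.sum_mul, ← Finset.mul_sum, Dbl_E_sum, Matrix.one_mul, Matrix.mul_one]

theorem Dbl_comm (hf : ∀ l k, a l k ≠ 0 → (l ∈ q ↔ k ∈ q)) (e : Bool) :
    a * Dbl_E q e = Dbl_E q e * a := by
  ext l k
  rw [Dbl_E, Matrix.mul_diagonal, Matrix.diagonal_mul]
  by_cases h : a l k = 0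
  · simp [h]
  · have h1 : decide (l ∈ q) = decide (k ∈ q) := decide_eq_decide.2 (hf l k h)
    rw [h1, mul_comm]

theorem Dbl_aeval_inv {S : Submodule ℂ (β → ℂ)} (hS : ∀ z ∈ S, a.mulVec z ∈ S)
    (f : Polynomial ℂ) : ∀ z ∈ S, (Polynomial.aeval a f).mulVec z ∈ S := by
  induction f using Polynomial.induction_on with
  | C c =>
    intro z hz
    rw [Polynomial.aeval_C, Algebra.algebraMap_eq_smul_one, Matrix.smul_mulVec, Matrix.one_mulVec]
    exact S.smul_mem c hz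
  | add f g hf hg =>
    intro z hz
    rw [map_add, Matrix.add_mulVec]
    exact S.add_mem (hf z hz) (hg z hz)
  | monomial n c ih =>
    intro z hz
    rw [pow_succ, ← mul_assoc, map_mul, Polynomial.aeval_X, ← Matrix.mulVec_mulVec]
    exact ih _ (hS z hz)

theorem Dbl_E_aeval (hf : Fit q a) (e : Bool) :
    ∃ f : Polynomial ℂ, Dbl_E q e = Polynomial.aeval a f := by
  obtain ⟨-, f₀, f₁, ⟨u, w, huw⟩, h0, h1⟩ := hf
  have e1 : Polynomial.aeval a (u * f₀) + Polynomial.aeval a (w * f₁) = 1 := by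
    rw [← map_add, huw, map_one]
  have z0 : ∀ l k, k ∈ q → Polynomial.aeval a (u * f₀) l k = 0 := fun l k hk => by
    rw [map_mul, Matrix.mul_apply]
    exact Finset.sum_eq_zero fun m _ => by rw [h0 m k hk, mul_zero]
  have z1 : ∀ l k, k ∉ q → Polynomial.aeval a (w * f₁) l k = 0 := fun l k hk => by
    rw [map_mul, Matrix.mul_apply]
    exact Finset.sum_eq_zero fun m _ => by rw [h1 m k hk, mul_zero]
  have e2 : ∀ l k, Polynomial.aeval a (u * f₀) l k + Polynomial.aeval a (w * f₁) l k =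
      (1 : Matrix β β ℂ) l k := fun l k => by rw [← e1, Matrix.add_apply]
  cases e
  · refine ⟨u * f₀, ?_⟩
    ext l k
    by_cases hk : k ∈ q
    · rw [z0 l k hk, Dbl_E, Matrix.diagonal_apply]
      split_ifs with c1 c2
      · subst c1
        simp [hk] at c2
      · rfl
      · rfl
    · have e3 := e2 l k
      rw [z1 l k hk, add_zero] at e3
      rw [e3, Dbl_E, Matrix.diagonal_apply, Matrix.one_apply]
      split_ifs with c1 c2
      · rfl
      · subst c1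
        simp [hk] at c2
      · rfl
  · refine ⟨w * f₁, ?_⟩
    ext l k
    by_cases hk : k ∈ q
    · have e3 := e2 l k
      rw [z0 l k hk, zero_add] at e3
      rw [e3, Dbl_E, Matrix.diagonal_apply, Matrix.one_apply]
      split_ifs with c1 c2
      · rfl
      · subst c1
        simp [hk] at c2
      · rfl
    · rw [z1 l k hk, Dbl_E, Matrix.diagonal_apply]
      split_ifs with c1 c2
      · subst c1
        simp [hk] at c2
      · rfl
      · rfl

theorem Dbl_E_inv (hf : Fit q a) {S : Submodule ℂ (β → ℂ)} (hS : ∀ z ∈ S, a.mulVec z ∈ S)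
    (e : Bool) : ∀ z ∈ S, (Dbl_E q e).mulVec z ∈ S := by
  obtain ⟨f, hE⟩ := Dbl_E_aeval hf e
  rw [hE]
  exact Dbl_aeval_inv hS f

/-- Splitting each arrow into its four blocks. -/
def Dbl_Phi (q : Finset β) (x : UU β Ar) : UU β (Ar × Bool × Bool) := fun γ =>
  match γ with
  | none => x none
  | some (Sum.inl h) => Dbl_E q h.2.2 * x (some (Sum.inl h.1)) * Dbl_E q h.2.1
  | some (Sum.inr h) => Dbl_E q h.2.1 * x (some (Sum.inr h.1)) * Dbl_E q h.2.2

/-- Adding up the four blocks. -/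
def Dbl_Psi (y : UU β (Ar × Bool × Bool)) : UU β Ar := fun γ =>
  match γ with
  | none => y none
  | some (Sum.inl h) => ∑ e, ∑ e', y (some (Sum.inl (h, e, e')))
  | some (Sum.inr h) => ∑ e, ∑ e', y (some (Sum.inr (h, e, e')))

theorem Dbl_cont_Phi : Continuous (Dbl_Phi q : UU β Ar → UU β (Ar × Bool × Bool)) := by
  refine continuous_pi fun γ => ?_
  rcases γ with _ | h | h
  · exact continuous_apply none
  · exact (continuous_const.matrix_mul (continuous_apply _)).matrix_mul continuous_const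
  · exact (continuous_const.matrix_mul (continuous_apply _)).matrix_mul continuous_const

theorem Dbl_cont_Psi : Continuous (Dbl_Psi : UU β (Ar × Bool × Bool) → UU β Ar) := by
  refine continuous_pi fun γ => ?_
  rcases γ with _ | h | h
  · exact continuous_apply none
  · exact continuous_finsetSum _ fun e _ => continuous_finsetSum _ fun e' _ => continuous_apply _
  · exact continuous_finsetSum _ fun e _ => continuous_finsetSum _ fun e' _ => continuous_apply _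

theorem Dbl_Psi_Phi (x : UU β Ar) : Dbl_Psi (Dbl_Phi q x) = x := by
  funext γ
  rcases γ with _ | h | h
  · rfl
  · exact Dbl_sum_blk (q := q) (x (some (Sum.inl h)))
  · exact Dbl_sum_blk' (q := q) (x (some (Sum.inr h)))

theorem Dbl_pick (M : Bool → Bool → Matrix β β ℂ) (l k : β) (b b' e e' : Bool)
    (hM : ∀ d d', M d d' l k ≠ 0 → b = d ∧ b' = d') :
    (if b = e ∧ b' = e' then (∑ d, ∑ d', M d d') l k else 0) = M e e' l k := by
  split_ifs with hc
  · rw [Matrix.sum_apply, Finset.sum_eq_single e, Matrix.sum_apply, Finset.sum_eq_single e']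
    · intro d' _ hd
      by_contra hn
      exact hd ((hM e d' hn).2.symm.trans hc.2)
    · intro h
      exact absurd (Finset.mem_univ _) h
    · intro d _ hd
      rw [Matrix.sum_apply]
      refine Finset.sum_eq_zero fun d' _ => ?_
      by_contra hn
      exact hd ((hM d d' hn).1.symm.trans hc.1)
    · intro h
      exact absurd (Finset.mem_univ _) h
  · by_contra hn
    exact hc (hM e e' fun h => hn h.symm)

theorem Dbl_ok_none (l k : β) : (D.dbl q).ok none l k = true ↔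
    D.ok none l k = true ∧ decide (l ∈ q) = decide (k ∈ q) := by
  simp only [ok, dbl, decide_eq_true_eq, Prod.mk.injEq]

theorem Dbl_ok_inl (h : Ar × Bool × Bool) (l k : β) :
    (D.dbl q).ok (some (Sum.inl h)) l k = true ↔ D.ok (some (Sum.inl h.1)) l k = true ∧
      decide (l ∈ q) = h.2.2 ∧ decide (k ∈ q) = h.2.1 := by
  simp only [ok, dbl, decide_eq_true_eq, Prod.mk.injEq]
  tauto

theorem Dbl_ok_inr (h : Ar × Bool × Bool) (l k : β) :
    (D.dbl q).ok (some (Sum.inr h)) l k = true ↔ D.ok (some (Sum.inr h.1)) l k = true ∧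
      decide (l ∈ q) = h.2.1 ∧ decide (k ∈ q) = h.2.2 := by
  simp only [ok, dbl, decide_eq_true_eq, Prod.mk.injEq]
  tauto

theorem Dbl_Phi_Psi {y : UU β (Ar × Bool × Bool)} (hy : y ∈ (D.dbl q).U (one β)) :
    Dbl_Phi q (Dbl_Psi y) = y := by
  rw [mem_U] at hy
  funext γ
  rcases γ with _ | ⟨h, e, e'⟩ | ⟨h, e, e'⟩
  · rfl
  · ext l k
    show (Dbl_E q e' * (∑ d, ∑ d', y (some (Sum.inl (h, d, d')))) * Dbl_E q e) l k = _
    rw [Dbl_blk, ← Dbl_pick (fun d d' => y (some (Sum.inl (h, d, d')))) l k (decide (k ∈ q))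
      (decide (l ∈ q)) e e' fun d d' hn => ((D.Dbl_ok_inl _ l k).1 (hy _ l k hn).1).2.symm]
    simp only [and_comm]
  · ext l k
    show (Dbl_E q e * (∑ d, ∑ d', y (some (Sum.inr (h, d, d')))) * Dbl_E q e') l k = _
    rw [Dbl_blk, ← Dbl_pick (fun d d' => y (some (Sum.inr (h, d, d')))) l k (decide (l ∈ q))
      (decide (k ∈ q)) e e' fun d d' hn => ((D.Dbl_ok_inr _ l k).1 (hy _ l k hn).1).2]

theorem Dbl_mem_U {x : UU β Ar} (hf : ∀ l k, x none l k ≠ 0 → (l ∈ q ↔ k ∈ q)) :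
    Dbl_Phi q x ∈ (D.dbl q).U (one β) ↔ x ∈ D.U (one β) := by
  rw [mem_U, mem_U]
  constructor
  · intro H γ l k hn
    refine ⟨?_, rfl⟩
    rcases γ with _ | h | h
    · exact ((D.Dbl_ok_none l k).1 (H none l k hn).1).1
    · refine ((D.Dbl_ok_inl (h, decide (k ∈ q), decide (l ∈ q)) l k).1 (H _ l k ?_).1).1
      show (Dbl_E q _ * x (some (Sum.inl h)) * Dbl_E q _ : Matrix β β ℂ) l k ≠ 0
      rw [Dbl_blk, if_pos ⟨rfl, rfl⟩]
      exact hn
    · refine ((D.Dbl_ok_inr (h, decide (l ∈ q), decide (k ∈ q)) l k).1 (H _ l k ?_).1).1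
      show (Dbl_E q _ * x (some (Sum.inr h)) * Dbl_E q _ : Matrix β β ℂ) l k ≠ 0
      rw [Dbl_blk, if_pos ⟨rfl, rfl⟩]
      exact hn
  · intro H γ l k hn
    refine ⟨?_, rfl⟩
    rcases γ with _ | h | h
    · exact (D.Dbl_ok_none l k).2 ⟨(H none l k hn).1, decide_eq_decide.2 (hf l k hn)⟩
    · have hn' : (Dbl_E q h.2.2 * x (some (Sum.inl h.1)) * Dbl_E q h.2.1) l k ≠ 0 := hn
      rw [Dbl_blk] at hn'
      split_ifs at hn' with hc
      · exact (D.Dbl_ok_inl h l k).2 ⟨(H _ l k hn').1, hc⟩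
      · exact absurd rfl hn'
    · have hn' : (Dbl_E q h.2.1 * x (some (Sum.inr h.1)) * Dbl_E q h.2.2) l k ≠ 0 := hn
      rw [Dbl_blk] at hn'
      split_ifs at hn' with hc
      · exact (D.Dbl_ok_inr h l k).2 ⟨(H _ l k hn').1, hc⟩
      · exact absurd rfl hn'

theorem Dbl_trace (hf : ∀ l k, a l k ≠ 0 → (l ∈ q ↔ k ∈ q)) (X Y : Matrix β β ℂ) (e e' : Bool) :
    Matrix.trace ((a * (Dbl_E q e' * X * Dbl_E q e) - Dbl_E q e' * X * Dbl_E q e * a) *
      (Dbl_E q e * Y * Dbl_E q e')) =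
      Matrix.trace (Dbl_E q e' * (a * X - X * a) * Dbl_E q e * Y) := by
  have e1 : a * (Dbl_E q e' * X * Dbl_E q e) - Dbl_E q e' * X * Dbl_E q e * a =
      Dbl_E q e' * (a * X - X * a) * Dbl_E q e := by
    rw [Matrix.mul_assoc (Dbl_E q e' * X), ← Dbl_comm hf e, ← Matrix.mul_assoc a,
      ← Matrix.mul_assoc a, Dbl_comm hf e']
    simp only [Matrix.mul_sub, Matrix.sub_mul, Matrix.mul_assoc]
  have e2 : ∀ (b : Bool) (Z : Matrix β β ℂ), Dbl_E q b * (Dbl_E q b * Z) = Dbl_E q b * Z :=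
    fun b Z => by rw [← Matrix.mul_assoc, Dbl_E_idem]
  rw [e1, ← Matrix.mul_assoc, Matrix.trace_mul_comm]
  simp only [Matrix.mul_assoc, e2]

theorem Dbl_Wf {x : UU β Ar} (hf : ∀ l k, x none l k ≠ 0 → (l ∈ q ↔ k ∈ q)) :
    Wf (Dbl_Phi q x) = Wf x := by
  rw [Wf_eq, Wf_eq, Fintype.sum_prod_type]
  refine Finset.sum_congr rfl fun h _ => ?_
  rw [Fintype.sum_prod_type]
  have e1 : ∀ e e' : Bool, Matrix.trace ((Dbl_Phi q x none * Dbl_Phi q x (some (Sum.inl (h, e, e'))) -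
      Dbl_Phi q x (some (Sum.inl (h, e, e'))) * Dbl_Phi q x none) *
      Dbl_Phi q x (some (Sum.inr (h, e, e')))) = Matrix.trace (Dbl_E q e' *
        (x none * x (some (Sum.inl h)) - x (some (Sum.inl h)) * x none) * Dbl_E q e *
        x (some (Sum.inr h))) := fun e e' => Dbl_trace hf _ _ e e'
  simp only [e1, ← Matrix.trace_sum, ← Finset.sum_mul, ← Finset.mul_sum, Dbl_E_sum,
    Matrix.one_mul, Matrix.mul_one]

theorem Dbl_invAll_Psi {y : UU β (Ar × Bool × Bool)} {S : Submodule ℂ (β → ℂ)} (h : InvAll y S) :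
    InvAll (Dbl_Psi y) S := by
  intro γ z hz
  rcases γ with _ | g | g
  · exact h none z hz
  · show (∑ e, ∑ e', y (some (Sum.inl (g, e, e')))).mulVec z ∈ S
    simp only [Matrix.sum_mulVec]
    exact S.sum_mem fun e _ => S.sum_mem fun e' _ => h _ z hz
  · show (∑ e, ∑ e', y (some (Sum.inr (g, e, e')))).mulVec z ∈ S
    simp only [Matrix.sum_mulVec]
    exact S.sum_mem fun e _ => S.sum_mem fun e' _ => h _ z hz

theorem Dbl_invAll_Phi {x : UU β Ar} {S : Submodule ℂ (β → ℂ)} (h : InvAll x S)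
    (hE : ∀ e, ∀ z ∈ S, (Dbl_E q e).mulVec z ∈ S) : InvAll (Dbl_Phi q x) S := by
  intro γ z hz
  rcases γ with _ | g | g
  · exact h none z hz
  · show (Dbl_E q _ * _ * Dbl_E q _).mulVec z ∈ S
    rw [← Matrix.mulVec_mulVec, ← Matrix.mulVec_mulVec]
    exact hE _ _ (h _ _ (hE _ z hz))
  · show (Dbl_E q _ * _ * Dbl_E q _).mulVec z ∈ S
    rw [← Matrix.mulVec_mulVec, ← Matrix.mulVec_mulVec]
    exact hE _ _ (h _ _ (hE _ z hz))

theorem Dbl_gr {S : Submodule ℂ (β → ℂ)} (hE : ∀ e, ∀ z ∈ S, (Dbl_E q e).mulVec z ∈ S) :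
    (D.dbl q).Gr S ↔ D.Gr S := by
  rw [gr_iff, gr_iff]
  constructor
  · intro H z hz i
    have e1 : (fun k => if D.v k = i then z k else 0) =
        (fun k => if (D.dbl q).v k = (i, true) then z k else 0) +
          fun k => if (D.dbl q).v k = (i, false) then z k else 0 := by
      funext k
      by_cases h1 : D.v k = i <;> by_cases h2 : k ∈ q <;> simp [dbl, h1, h2]
    rw [e1]
    exact S.add_mem (H z hz _) (H z hz _)
  · rintro H z hz ⟨i, e⟩
    have e1 : (fun k => if (D.dbl q).v k = (i, e) then z k else 0) =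
        (Dbl_E q e).mulVec fun k => if D.v k = i then z k else 0 := by
      funext k
      rw [Dbl_E_mulVec]
      by_cases h1 : D.v k = i <;> by_cases h2 : decide (k ∈ q) = e <;> simp [dbl, h1, h2]
    rw [e1]
    exact hE e _ (H z hz i)

theorem Dbl_mem_Vi {J B : Type} [Fintype J] [DecidableEq J] [Fintype B] [DecidableEq B]
    (D' : HD β J B τ) {j : J} {z : β → ℂ} : z ∈ D'.Vi j ↔ ∀ k, D'.v k ≠ j → z k = 0 := by
  simp [Vi, Submodule.mem_pi]

theorem Dbl_dimS {S : Submodule ℂ (β → ℂ)} (hE : ∀ e, ∀ z ∈ S, (Dbl_E q e).mulVec z ∈ S) (i : I) :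
    (D.dbl q).dimS S (i, true) + (D.dbl q).dimS S (i, false) = D.dimS S i := by
  have e1 : (S ⊓ (D.dbl q).Vi (i, true)) ⊔ (S ⊓ (D.dbl q).Vi (i, false)) = S ⊓ D.Vi i := by
    have le : ∀ e, S ⊓ (D.dbl q).Vi (i, e) ≤ S ⊓ D.Vi i := fun e z hz =>
      ⟨hz.1, (Dbl_mem_Vi D).2 fun k hk => (Dbl_mem_Vi (D.dbl q)).1 hz.2 k fun h =>
        hk (congrArg Prod.fst h)⟩
    refine le_antisymm (sup_le (le _) (le _)) fun z hz => ?_
    have mem : ∀ e, (Dbl_E q e).mulVec z ∈ S ⊓ (D.dbl q).Vi (i, e) := fun e =>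
      ⟨hE e z hz.1, (Dbl_mem_Vi (D.dbl q)).2 fun k hk => by
        rw [Dbl_E_mulVec]
        split_ifs with hc
        · exact (Dbl_mem_Vi D).1 hz.2 k fun h => hk (Prod.ext h hc)
        · rfl⟩
    have e2 : z = (Dbl_E q true).mulVec z + (Dbl_E q false).mulVec z := by
      rw [← Matrix.add_mulVec, ← Fintype.sum_bool (Dbl_E q), Dbl_E_sum, Matrix.one_mulVec]
    rw [e2]
    exact Submodule.add_mem_sup (mem true) (mem false)
  have e2 : (S ⊓ (D.dbl q).Vi (i, true)) ⊓ (S ⊓ (D.dbl q).Vi (i, false)) = ⊥ := by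
    refine eq_bot_iff.2 fun z hz => ?_
    rw [Submodule.mem_bot]
    funext k
    by_cases hk : (D.dbl q).v k = (i, true)
    · refine (Dbl_mem_Vi (D.dbl q)).1 hz.2.2 k fun h => ?_
      rw [hk] at h
      exact Bool.noConfusion (congrArg Prod.snd h)
    · exact (Dbl_mem_Vi (D.dbl q)).1 hz.1.2 k hk
  have e3 := Submodule.finrank_sup_add_finrank_inf_eq (S ⊓ (D.dbl q).Vi (i, true))
    (S ⊓ (D.dbl q).Vi (i, false))
  rw [e1, e2, finrank_bot, add_zero] at e3
  exact e3.symm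

theorem Dbl_thd {S : Submodule ℂ (β → ℂ)} (hE : ∀ e, ∀ z ∈ S, (Dbl_E q e).mulVec z ∈ S) :
    thd (fun j : I × Bool => th j.1) ((D.dbl q).dimS S) = thd th (D.dimS S) := by
  rw [thd, thd, Fintype.sum_prod_type]
  refine Finset.sum_congr rfl fun i _ => ?_
  rw [Fintype.sum_bool, ← D.Dbl_dimS hE i, Nat.cast_add, mul_add]

theorem Dbl_mem_Vq {r : Finset β} {z : β → ℂ} :
    z ∈ (Vq r : Submodule ℂ (β → ℂ)) ↔ ∀ k, k ∉ r → z k = 0 := by
  simp [Vq, Submodule.mem_pi]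

theorem Dbl_thd_dimv (r : Finset β) :
    thd (fun j : I × Bool => th j.1) ((D.dbl q).dimv r) = thd th (D.dimv r) := by
  rw [← dimS_Vq, ← dimS_Vq]
  refine D.Dbl_thd fun e z hz => Dbl_mem_Vq.2 fun k hk => ?_
  rw [Dbl_E_mulVec, Dbl_mem_Vq.1 hz k hk, ite_self]

theorem Dbl_mem_SS (hf : Fit q a) {x : UU β Ar} (hx : x none = a) :
    Dbl_Phi q x ∈ (D.dbl q).SS (fun j => th j.1) ↔ x ∈ D.SS th := by
  constructor
  · intro H S hS hI
    have hE := Dbl_E_inv hf (S := S) (hx ▸ hI none)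
    rw [← D.Dbl_thd hE]
    exact H S ((D.Dbl_gr hE).2 hS) (Dbl_invAll_Phi hI hE)
  · intro H S hS hI
    have hI' : InvAll x S := by
      have h1 := Dbl_invAll_Psi hI
      rwa [Dbl_Psi_Phi] at h1
    have hE := Dbl_E_inv hf (S := S) (hx ▸ hI' none)
    rw [D.Dbl_thd hE]
    exact H S ((D.Dbl_gr hE).1 hS) hI'

theorem Dbl_mem (hf : Fit q a) (x : UU β Ar) :
    Dbl_Phi q x ∈ (D.dbl q).Bs (one β) a univ ∩ (D.dbl q).SS (fun j => th j.1) ↔
      x ∈ D.Bs (one β) a univ ∩ D.SS th := by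
  have key : x none = a → (Dbl_Phi q x ∈ (D.dbl q).U (one β) ↔ x ∈ D.U (one β)) ∧
      Wf (Dbl_Phi q x) = Wf x := fun hx =>
    ⟨D.Dbl_mem_U (hx ▸ hf.1), Dbl_Wf (hx ▸ hf.1)⟩
  constructor
  · rintro ⟨⟨h1, h2, -, h4⟩, h5⟩
    have hx : x none = a := h2
    exact ⟨⟨(key hx).1.1 h1, hx, mem_univ _, (key hx).2 ▸ h4⟩, (D.Dbl_mem_SS hf hx).1 h5⟩
  · rintro ⟨⟨h1, hx, -, h4⟩, h5⟩
    exact ⟨⟨(key hx).1.2 h1, hx, mem_univ _, (key hx).2.symm ▸ h4⟩, (D.Dbl_mem_SS hf hx).2 h5⟩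

theorem Dbl_homeo (hf : Fit q a) : HomeoOn (Dbl_Phi q) Dbl_Psi (D.Bs (one β) a univ ∩ D.SS th)
    ((D.dbl q).Bs (one β) a univ ∩ (D.dbl q).SS (fun j => th j.1)) :=
  ⟨Dbl_cont_Phi.continuousOn, Dbl_cont_Psi.continuousOn, fun x hx => (D.Dbl_mem hf x).2 hx,
    fun y hy => (D.Dbl_mem hf _).1 (by rw [D.Dbl_Phi_Psi hy.1.1]; exact hy),
    fun x _ => Dbl_Psi_Phi x, fun y hy => D.Dbl_Phi_Psi hy.1.1⟩

/-- The arrows inside the two blocks. -/
def Dbl_G (Ar : Type) : Gam (Ar × Bool × Bool) → Bool := fun γ =>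
  match γ with
  | none => true
  | some (Sum.inl h) => h.2.1 == h.2.2
  | some (Sum.inr h) => h.2.1 == h.2.2

theorem Dbl_mode (hf : Fit q a) : (D.dbl q).Mode (Dbl_G Ar) a := by
  obtain ⟨-, f₀, f₁, hc, h0, h1⟩ := hf
  refine Or.inr ⟨rfl, fun _ => rfl, fun j => cond j.2 f₀ f₁, fun l k => ?_, ?_⟩
  · by_cases hk : k ∈ q
    · simpa [dbl, hk] using h0 l k hk
    · simpa [dbl, hk] using h1 l k hk
  · rintro ⟨h, e, e'⟩ hG
    cases e <;> cases e'
    · exact Bool.noConfusion hG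
    · exact hc.symm
    · exact hc
    · exact Bool.noConfusion hG

theorem Dbl_cut_diag {y : UU β (Ar × Bool × Bool)} (hy : y ∈ (D.dbl q).U (one β)) (γ) (l k : β)
    (hn : cut (Dbl_G Ar) y γ l k ≠ 0) : l ∈ q ↔ k ∈ q := by
  rw [mem_U] at hy
  unfold cut at hn
  split_ifs at hn with hG
  · have h1 := (hy γ l k hn).1
    rw [← decide_eq_decide]
    rcases γ with _ | h | h
    · exact ((D.Dbl_ok_none l k).1 h1).2
    · have h2 := ((D.Dbl_ok_inl h l k).1 h1).2
      have h3 : h.2.1 = h.2.2 := beq_iff_eq.1 hG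
      rw [h2.1, h2.2, h3]
    · have h2 := ((D.Dbl_ok_inr h l k).1 h1).2
      have h3 : h.2.1 = h.2.2 := beq_iff_eq.1 hG
      rw [h2.1, h2.2, h3]
  · exact absurd rfl hn

theorem Dbl_inv_Vq {B : Type} {y : UU β B} {r : Finset β}
    (h : ∀ γ l k, y γ l k ≠ 0 → (l ∈ r ↔ k ∈ r)) : InvAll y (Vq r) := by
  intro γ z hz
  refine Dbl_mem_Vq.2 fun l hl => ?_
  refine Finset.sum_eq_zero fun k _ => ?_
  by_cases hk : k ∈ r
  · have h0 : y γ l k = 0 := by
      by_contra hn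
      exact hl ((h γ l k hn).2 hk)
    show y γ l k * z k = 0
    rw [h0, zero_mul]
  · show y γ l k * z k = 0
    rw [Dbl_mem_Vq.1 hz k hk, mul_zero]

theorem Dbl_not_SS {k₀ : β} (hg : D.Gen0 th k₀) (h1 : q.Nonempty) (h2 : q ≠ Finset.univ)
    {y : UU β (Ar × Bool × Bool)} (hy : y ∈ (D.dbl q).U (one β)) :
    cut (Dbl_G Ar) y ∉ (D.dbl q).SS (fun j => th j.1) := by
  intro H
  have a1 := H (Vq q) (gr_Vq _ q) (Dbl_inv_Vq (D.Dbl_cut_diag hy))
  have a2 := H (Vq qᶜ) (gr_Vq _ qᶜ) (Dbl_inv_Vq fun γ l k hn => by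
    rw [Finset.mem_compl, Finset.mem_compl, D.Dbl_cut_diag hy γ l k hn])
  rw [dimS_Vq, Dbl_thd_dimv] at a1 a2
  have a3 := hg.tot
  rw [← Finset.union_compl q, D.dimv_union disjoint_compl_right, thd_add] at a3
  refine hg.gen (D.dimv q) (D.dimv_le q) (fun h => ?_) (fun h => h2 ?_) (by omega)
  · have a4 := D.sum_dimv q
    rw [h] at a4
    exact h1.card_pos.ne (by simpa using a4)
  · have a4 := D.sum_dimv q
    rw [h, sum_dimv] at a4
    exact Finset.eq_univ_of_card q (by rw [← a4, Finset.card_univ])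

theorem vanish_fit {k₀ : β} (hg : D.Gen0 th k₀) (h1 : q.Nonempty) (h2 : q ≠ Finset.univ)
    (hf : Fit q a) : Subsingleton (Hc (D.Bs (one β) a univ ∩ D.SS th)) := by
  refine (D.Dbl_homeo hf).subsingleton ?_
  have h3 := (D.dbl q).lemV_one (th := fun j => th j.1) ((D.Dbl_thd_dimv _).trans hg.tot)
    (D.Dbl_mode hf)
  have e : (D.dbl q).Bs (one β) a univ ∩ ((D.dbl q).SS (fun j => th j.1) \
      cut (Dbl_G Ar) ⁻¹' (D.dbl q).SS (fun j => th j.1)) =
      (D.dbl q).Bs (one β) a univ ∩ (D.dbl q).SS (fun j => th j.1) :=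
    Set.ext fun y => ⟨fun h => ⟨h.1, h.2.1⟩, fun h => ⟨h.1, h.2, D.Dbl_not_SS hg h1 h2 h.1.1⟩⟩
  rwa [e] at h3

end HD

end Pool.Agent.HK
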