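import Pool.Agent.P.MP_1206ce_ag.LV.Defs

/-! Fitting form of the loop and conjugation by invertible matrices. -/

open scoped Topology
open Filter Set

set_option linter.unusedSectionVars false

noncomputable section

namespace Pool.Agent.HK

namespace HD

variable {β I Ar τ Λ Λ' : Type} [Fintype β] [DecidableEq β] [Fintype I] [DecidableEq I] [Fintype Ar]
  [DecidableEq Ar] [Fintype τ] [DecidableEq τ] [DecidableEq Λ] [DecidableEq Λ'] (D : HD β I Ar τ)

variable {th : I → ℤ} {key : (I → ℕ) → ℤ} {G : Gam Ar → Bool} {sl : β → Λ} {p q : Finset β}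
  {a : Matrix β β ℂ} {P : Set (UU β Ar)}

/-- Block diagonal matrices. -/
def Fit_B : Subalgebra ℂ (Matrix β β ℂ) where
  carrier := {m | ∀ l k, m l k ≠ 0 → D.v l = D.v k}
  mul_mem' := fun {m m'} hm hm' l k h => by
    obtain ⟨j, -, hj⟩ := Finset.exists_ne_zero_of_sum_ne_zero h
    exact (hm l j (left_ne_zero_of_mul hj)).trans (hm' j k (right_ne_zero_of_mul hj))
  add_mem' := fun {m m'} hm hm' l k h => by
    by_contra hc
    refine h ?_
    rw [Matrix.add_apply, not_not.1 (mt (hm l k) hc), not_not.1 (mt (hm' l k) hc), add_zero]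
  algebraMap_mem' := fun c l k h => by
    by_contra hc
    exact h (by rw [Matrix.algebraMap_matrix_apply, if_neg fun e => hc (by rw [e])])

theorem Fit_aeval {g g' : Matrix β β ℂ} (h1 : g * g' = 1) (h2 : g' * g = 1) (a : Matrix β β ℂ)
    (f : Polynomial ℂ) : Polynomial.aeval (g * a * g') f = g * Polynomial.aeval a f * g' := by
  induction f using Polynomial.induction_on with
  | C c => rw [Polynomial.aeval_C, Polynomial.aeval_C, ← Algebra.commutes, mul_assoc, h1, mul_one]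
  | add p q hp hq => rw [map_add, map_add, hp, hq, mul_add, add_mul]
  | monomial n c h =>
    rw [pow_succ, ← mul_assoc (Polynomial.C c), map_mul, map_mul _ _ Polynomial.X, h,
      Polynomial.aeval_X, Polynomial.aeval_X]
    simp only [mul_assoc]
    rw [← mul_assoc g' g, h2, one_mul]

/-- The coordinate projector. -/
def Fit_pi (q : Finset β) : Matrix β β ℂ := Matrix.diagonal fun k => if k ∈ q then 1 else 0

theorem Fit_proj {e : Matrix β β ℂ} (he : e ∈ D.Fit_B) (hee : e * e = e) :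
    ∃ (q : Finset β) (g g' : Matrix β β ℂ), g * g' = 1 ∧ g' * g = 1 ∧ g ∈ D.Fit_B ∧
      g' ∈ D.Fit_B ∧ g * e * g' = Fit_pi q := by
  have h1 : D.Gr ((Vq Finset.univ).map e.mulVecLin) := ((D.gr_Vq Finset.univ).map he).1
  have h2 : (Vq Finset.univ).map e.mulVecLin ≤ Vq Finset.univ := by
    rw [Vq_univ]
    exact le_top
  obtain ⟨q, hq, h3⟩ := D.exists_dimv (D.dimS_le_dimv h2)
  obtain ⟨u, hu, h4, -⟩ := D.exists_conj (sl := one β) ⟨(), by simp⟩ hq h1 h2 h3.symm
  have hU := D.gau_unitary hu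
  have u1 : gau u * star (gau u) = 1 := Matrix.mem_unitaryGroup_iff.1 hU
  have u2 : star (gau u) * gau u = 1 := Matrix.mem_unitaryGroup_iff'.1 hU
  have b1 : gau u ∈ D.Fit_B := fun l k h => (D.gau_block hu h).1
  have b2 : star (gau u) ∈ D.Fit_B := fun l k h =>
    (b1 k l fun e => h (by rw [Matrix.star_apply, e, star_zero])).symm
  have b3 : Fit_pi q ∈ D.Fit_B := fun l k h => by
    by_contra hc
    exact h (Matrix.diagonal_apply_ne _ fun e => hc (by rw [e]))
  obtain ⟨e', he'⟩ : ∃ e', e' = gau u * e * star (gau u) := ⟨_, rfl⟩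
  have b4 : e' ∈ D.Fit_B := he' ▸ mul_mem (mul_mem b1 he) b2
  have e1 : e' * e' = e' := by
    rw [he']
    simp only [mul_assoc]
    rw [← mul_assoc (star (gau u)), u2, one_mul, ← mul_assoc e, hee]
  have e2 : Fit_pi q * Fit_pi q = Fit_pi q := by
    rw [Fit_pi, Matrix.diagonal_mul_diagonal]
    congr 1
    funext k
    split_ifs <;> simp
  have e3 : Fit_pi q * e' = e' := by
    refine Matrix.toLin'.injective (LinearMap.ext fun z => funext fun k => ?_)
    have h5 : e'.mulVec z ∈ Vq q := by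
      rw [← h4, he', ← Matrix.mulVec_mulVec, ← Matrix.mulVec_mulVec]
      exact ⟨_, ⟨_, by rw [Vq_univ]; trivial, rfl⟩, rfl⟩
    rw [Matrix.toLin'_apply, Matrix.toLin'_apply, ← Matrix.mulVec_mulVec, Fit_pi,
      Matrix.mulVec_diagonal]
    split_ifs with hk
    · exact one_mul _
    · rw [zero_mul, Basic_mem_Vq.1 h5 k hk]
  have e4 : e' * Fit_pi q = Fit_pi q := by
    refine Matrix.toLin'.injective (LinearMap.ext fun z => ?_)
    have h5 : (Fit_pi q).mulVec z ∈ Vq q := Basic_mem_Vq.2 fun k hk => by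
      rw [Fit_pi, Matrix.mulVec_diagonal, if_neg hk, zero_mul]
    rw [← h4] at h5
    obtain ⟨_, ⟨y, -, rfl⟩, h6⟩ := h5
    rw [Matrix.toLin'_apply, Matrix.toLin'_apply, ← Matrix.mulVec_mulVec, ← h6,
      Matrix.mulVecLin_apply, Matrix.mulVecLin_apply, Matrix.mulVec_mulVec, Matrix.mulVec_mulVec,
      Matrix.mulVec_mulVec, he']
    simp only [mul_assoc]
    rw [← mul_assoc (star (gau u)), u2, one_mul, hee]
  have n1 : (e' - Fit_pi q) * (e' - Fit_pi q) = 0 := by
    rw [sub_mul, mul_sub, mul_sub, e1, e2, e3, e4, sub_self]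
  have n2 : (1 + (e' - Fit_pi q)) * (1 - (e' - Fit_pi q)) = 1 := by
    rw [mul_sub, mul_one, add_mul 1, n1]
    simp
  have n3 : (1 - (e' - Fit_pi q)) * (1 + (e' - Fit_pi q)) = 1 := by
    rw [mul_add, mul_one, sub_mul 1, n1]
    simp
  refine ⟨q, (1 + (e' - Fit_pi q)) * gau u, star (gau u) * (1 - (e' - Fit_pi q)), ?_, ?_,
    mul_mem (add_mem (one_mem _) (sub_mem b4 b3)) b1,
    mul_mem b2 (sub_mem (one_mem _) (sub_mem b4 b3)), ?_⟩
  · rw [mul_assoc, ← mul_assoc (gau u), u1, one_mul, n2]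
  · rw [mul_assoc, ← mul_assoc (1 - _), n3, one_mul, u2]
  · have h5 : (1 + (e' - Fit_pi q)) * e' = e' := by
      rw [add_mul, sub_mul, e1, e3, sub_self, add_zero, one_mul]
    calc _ = (1 + (e' - Fit_pi q)) * e' * (1 - (e' - Fit_pi q)) := by
          rw [he']
          simp only [mul_assoc]
      _ = Fit_pi q := by rw [h5, mul_sub, mul_sub, e1, e4, mul_one, sub_sub_cancel]

theorem Fit_maps {g g' : Matrix β β ℂ} (h1 : g * g' = 1) (h2 : g' * g = 1)
    (hg : ∀ l k, g l k ≠ 0 → D.v l = D.v k) (hg' : ∀ l k, g' l k ≠ 0 → D.v l = D.v k)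
    {b : Matrix β β ℂ} (hb : g * a * g' = b) :
    MapsTo (fun (x : UU β Ar) γ => g * x γ * g') (D.Bs (one β) a univ ∩ D.SS th)
      (D.Bs (one β) b univ ∩ D.SS th) := by
  rintro x ⟨⟨hU, ha, -, hW⟩, hS⟩
  have hm : ∀ y z : Matrix β β ℂ, g * y * g' * (g * z * g') = g * (y * z) * g' := fun y z => by
    simp only [mul_assoc]
    rw [← mul_assoc g' g, h2, one_mul]
  refine ⟨⟨D.mem_U.2 fun γ l k h => ⟨?_, rfl⟩, by rw [← hb, ← ha], trivial, ?_⟩,
    fun S hG hI => ?_⟩
  · obtain ⟨k', -, h3⟩ := Finset.exists_ne_zero_of_sum_ne_zero h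
    obtain ⟨l', -, h4⟩ := Finset.exists_ne_zero_of_sum_ne_zero (left_ne_zero_of_mul h3)
    rw [D.Basic_ok_congr γ (hg l l' (left_ne_zero_of_mul h4))
      (hg' k' k (right_ne_zero_of_mul h3)).symm]
    exact (D.mem_U.1 hU γ l' k' (right_ne_zero_of_mul h4)).1
  · have h3 : mu (fun γ => g * x γ * g' : UU β Ar) = g * mu x * g' := by
      simp only [mu, hm, Finset.mul_sum, Finset.sum_mul, mul_sub, sub_mul]
    rwa [Wf, h3, hm, Matrix.trace_mul_cycle, h2, one_mul]
  · obtain ⟨h3, -, h4⟩ := hG.map hg'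
    have h5 : LinearMap.ker g'.mulVecLin = ⊥ := LinearMap.ker_eq_bot'.2 fun z hz => by
      rw [← Matrix.one_mulVec z, ← h1, ← Matrix.mulVec_mulVec, ← Matrix.mulVecLin_apply g', hz,
        Matrix.mulVec_zero]
    rw [h5, inf_bot_eq, D.dimS_bot, zero_add] at h4
    rw [h4]
    refine hS _ h3 ?_
    rintro γ _ ⟨y, hy, rfl⟩
    refine ⟨_, hI γ y hy, ?_⟩
    rw [Matrix.mulVecLin_apply, Matrix.mulVecLin_apply, Matrix.mulVec_mulVec, Matrix.mulVec_mulVec,
      ← mul_assoc, ← mul_assoc, h2, one_mul]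

/-- Write the characteristic polynomial as `X ^ r * f₁` with `f₁ 0 ≠ 0`, take `f₀ = X ^ (r + 1)`;
the kernels of `f₀ a` and `f₁ a` are complementary graded subspaces. -/
theorem exists_fit (ha : ∀ l k, a l k ≠ 0 → D.v l = D.v k) {k₀ : β}
    (hs : ∀ l, D.v l = D.v k₀ → l = k₀) (h0 : a k₀ k₀ = 0) (hn : ¬ IsNilpotent a) :
    ∃ (q : Finset β) (g g' : Matrix β β ℂ), q.Nonempty ∧ q ≠ Finset.univ ∧ g * g' = 1 ∧
      g' * g = 1 ∧ (∀ l k, g l k ≠ 0 → D.v l = D.v k) ∧ (∀ l k, g' l k ≠ 0 → D.v l = D.v k) ∧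
      Fit q (g * a * g') := by
  obtain ⟨f₁, e1, hd⟩ :=
    Polynomial.exists_eq_pow_rootMultiplicity_mul_and_not_dvd _ a.charpoly_monic.ne_zero 0
  obtain ⟨r, hr⟩ : ∃ r, r = a.charpoly.rootMultiplicity 0 := ⟨_, rfl⟩
  rw [map_zero, sub_zero] at hd
  rw [map_zero, sub_zero, ← hr] at e1
  have hc : IsCoprime (Polynomial.X ^ (r + 1)) f₁ :=
    (Polynomial.irreducible_X.coprime_iff_not_dvd.2 hd).pow_left
  obtain ⟨u, w, huw⟩ := id hc
  have hz : ∀ f : Polynomial ℂ, Polynomial.aeval a (f * a.charpoly) = 0 := fun f => by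
    rw [map_mul, Matrix.aeval_self_charpoly, mul_zero]
  have e2 : Polynomial.aeval a (Polynomial.X ^ (r + 1) * (w * f₁)) = 0 := by
    rw [← hz (Polynomial.X * w), e1]
    congr 1
    ring
  have e3 : Polynomial.aeval a (f₁ * (1 - w * f₁)) = 0 := by
    rw [← hz (Polynomial.X * u), e1, ← huw]
    congr 1
    ring
  have hB : Polynomial.aeval a (w * f₁) ∈ D.Fit_B :=
    Algebra.adjoin_le (S := D.Fit_B) (singleton_subset_iff.2 ha)
      (Polynomial.aeval_mem_adjoin_singleton ℂ a)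
  obtain ⟨q, g, g', h1, h2, hg, hg', h3⟩ := D.Fit_proj hB (by
    rw [← sub_eq_zero, ← map_mul, ← map_sub, ← neg_eq_zero, ← map_neg, ← mul_zero
      (Polynomial.aeval a w), ← e3, ← map_mul]
    congr 1
    ring)
  have h4 : Polynomial.aeval a (w * f₁) = g' * Fit_pi q * g := by
    rw [← h3]
    simp only [mul_assoc]
    rw [h2, mul_one, ← mul_assoc, h2, one_mul]
  rw [← Fit_aeval h1 h2] at h3
  refine ⟨q, g, g', Finset.nonempty_iff_ne_empty.2 ?_, ?_, h1, h2, hg, hg', fun l k h => ?_,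
    _, _, hc, fun l k hk => ?_, fun l k hk => ?_⟩
  · rintro rfl
    have h5 := congrArg (Polynomial.aeval a) huw
    have h6 : Fit_pi (∅ : Finset β) = 0 := by simp [Fit_pi]
    rw [map_add, h4, h6, mul_zero, zero_mul, add_zero, pow_succ, ← mul_assoc, map_mul, map_one,
      Polynomial.aeval_X] at h5
    have h7 := congrFun (congrFun h5 k₀) k₀
    rw [Matrix.one_apply_eq, Matrix.mul_apply, Finset.sum_eq_zero fun l _ => by
      rw [not_not.1 fun e : a l k₀ ≠ 0 => e (by rw [hs l (ha l k₀ e), h0]), mul_zero]] at h7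
    exact zero_ne_one h7
  · rintro rfl
    have h6 : Fit_pi (Finset.univ : Finset β) = 1 := by simp [Fit_pi]
    rw [map_mul, h4, h6, mul_one, h2, mul_one, map_pow, Polynomial.aeval_X] at e2
    exact hn ⟨_, e2⟩
  · have h5 : Fit_pi q * (g * a * g') = g * a * g' * Fit_pi q := by
      rw [← h3]
      conv_lhs => rhs; rw [← Polynomial.aeval_X (R := ℂ) (g * a * g')]
      conv_rhs => lhs; rw [← Polynomial.aeval_X (R := ℂ) (g * a * g')]
      rw [← map_mul, ← map_mul, mul_comm]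
    have h6 := congrFun (congrFun h5 l) k
    rw [Fit_pi, Matrix.diagonal_mul, Matrix.mul_diagonal, mul_comm] at h6
    have h7 := mul_left_cancel₀ h h6
    by_cases hl : l ∈ q <;> by_cases hk : k ∈ q <;> simp [hl, hk] at h7 ⊢
  · have h5 : Polynomial.aeval (g * a * g') (Polynomial.X ^ (r + 1) : Polynomial ℂ) *
        Fit_pi q = 0 := by
      rw [← h3, ← map_mul, Fit_aeval h1 h2, e2, mul_zero, zero_mul]
    have h6 := congrFun (congrFun h5 l) k
    rwa [Fit_pi, Matrix.mul_diagonal, if_pos hk, mul_one] at h6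
  · have h5 : Polynomial.aeval (g * a * g') f₁ =
        Polynomial.aeval (g * a * g') f₁ * Fit_pi q := by
      rw [← sub_eq_zero, ← mul_one_sub, ← h3, ← map_one (Polynomial.aeval (R := ℂ) (g * a * g')),
        ← map_sub, ← map_mul, Fit_aeval h1 h2, e3, mul_zero, zero_mul]
    rw [h5, Fit_pi, Matrix.mul_diagonal, if_neg hk, mul_zero]

theorem conj_gl {g g' : Matrix β β ℂ} (h1 : g * g' = 1) (h2 : g' * g = 1)
    (hg : ∀ l k, g l k ≠ 0 → D.v l = D.v k) (hg' : ∀ l k, g' l k ≠ 0 → D.v l = D.v k) :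
    HomeoOn (fun (x : UU β Ar) γ => g * x γ * g') (fun (x : UU β Ar) γ => g' * x γ * g)
      (D.Bs (one β) a univ ∩ D.SS th) (D.Bs (one β) (g * a * g') univ ∩ D.SS th) := by
  have hc : ∀ g g' : Matrix β β ℂ, Continuous fun (x : UU β Ar) γ => g * x γ * g' := fun g g' =>
    continuous_pi fun γ => (continuous_const.matrix_mul (continuous_apply γ)).matrix_mul
      continuous_const
  have hi : ∀ g g' y : Matrix β β ℂ, g' * g = 1 → g' * (g * y * g') * g = y := fun g g' y h => by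
    simp only [mul_assoc]
    rw [h, mul_one, ← mul_assoc, h, one_mul]
  exact ⟨(hc g g').continuousOn, (hc g' g).continuousOn, D.Fit_maps h1 h2 hg hg' rfl,
    D.Fit_maps h2 h1 hg' hg (hi g g' a h2), fun x _ => funext fun γ => hi g g' _ h2,
    fun x _ => funext fun γ => hi g' g _ h1⟩

end HD

end Pool.Agent.HK
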