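import Pool.Agent.P.MP_1206ce_ag.LV.Key

/-! The strata where the potential is affine and nonconstant along a block. -/

open scoped Topology
open Filter Set

set_option linter.unusedSectionVars false

noncomputable section

namespace Pool.Agent.HK

namespace HD

variable {β I Ar τ Λ Λ' : Type} [Fintype β] [DecidableEq β] [Fintype I] [DecidableEq I] [Fintype Ar]
  [DecidableEq Ar] [Fintype τ] [DecidableEq τ] [DecidableEq Λ] [DecidableEq Λ'] (D : HD β I Ar τ)

variable {th : I → ℤ} {key : (I → ℕ) → ℤ} {G : Gam Ar → Bool} {sl : β → Λ} {p q : Finset β}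
  {a : Matrix β β ℂ} {P : Set (UU β Ar)}

theorem Aff_vanish (L : Submodule ℝ (UU β Ar)) {A : Set (UU β Ar)} {W : UU β Ar → ℝ}
    (hA : ∀ x ∈ A, ∀ v ∈ L, x + v ∈ A)
    (hW : ∀ x ∈ A, ∃ ℓ : L →ₗ[ℝ] ℝ, ℓ ≠ 0 ∧ ∀ v : L, W (x + v) = W x + ℓ v)
    (hl : LC (A ∩ {x | 0 ≤ W x})) : Subsingleton (Hc (A ∩ {x | 0 ≤ W x})) := by
  have hh : HomeoOn (fun x : UU β Ar => ((x, ()) : (Gam Ar → β → β → ℂ) × Unit)) (fun y => y.1)
      (A ∩ {x | 0 ≤ W x}) ({y | (y.1 : UU β Ar) ∈ A} ∩ {y | 0 ≤ W y.1}) :=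
    ⟨(continuous_id.prodMk continuous_const).continuousOn, continuous_fst.continuousOn,
      fun _ h => h, fun _ h => h, fun _ _ => rfl, fun _ _ => rfl⟩
  exact hh.subsingleton (vanish_affine (F := Gam Ar → β → β → ℂ) (B := Unit) L
    (D := {y | (y.1 : UU β Ar) ∈ A}) (W := fun y => W y.1) (fun y hy v hv => hA y.1 hy v hv)
    (fun y hy => hW y.1 hy) (LC.of_homeoOn hh.symm hl))

theorem Aff_mem_Vq {z : β → ℂ} : z ∈ (Vq q : Submodule ℂ (β → ℂ)) ↔ ∀ k, k ∉ q → z k = 0 := by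
  simp [Vq, Submodule.mem_pi]

theorem Aff_inv_iff {M : Matrix β β ℂ} :
    (∀ z ∈ (Vq q : Submodule ℂ (β → ℂ)), M.mulVec z ∈ Vq q) ↔
      ∀ k, k ∉ q → ∀ l ∈ q, M k l = 0 := by
  constructor
  · intro h k hk l hl
    have := Aff_mem_Vq.1 (h (Pi.single l 1) (Aff_mem_Vq.2 fun m hm =>
      Pi.single_eq_of_ne (fun e : m = l => hm (e ▸ hl)) _)) k hk
    simpa using this
  · intro h z hz
    refine Aff_mem_Vq.2 fun k hk => Finset.sum_eq_zero fun l _ => ?_
    by_cases hl : l ∈ q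
    · simp [h k hk l hl]
    · simp [Aff_mem_Vq.1 hz l hl]

theorem Aff_ok {γ : Gam Ar} {l k l' k' : β} (h : D.ok γ l k = true) (h1 : D.v l = D.v l')
    (h2 : D.v k = D.v k') : D.ok γ l' k' = true := by
  rcases γ with _ | γ | γ <;> simp_all [ok]

theorem Aff_ok_swap {γ : Ar ⊕ Ar} {l k : β} (h : D.ok (some γ) k l = true) :
    D.ok (some γ.swap) l k = true := by
  rcases γ with γ | γ <;> simp_all [ok]

theorem Aff_slot (hp : IsSlot sl p) {k l : β} (hl : l ∈ p) (h : sl k = sl l) : k ∈ p := by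
  obtain ⟨j, rfl⟩ := hp
  simp_all

/-- Coordinate subspaces of the ambient space. -/
def Aff_L (J : Finset (Gam Ar × β × β)) : Submodule ℝ (UU β Ar) where
  carrier := LinS co J
  add_mem' := fun {x y} hx hy i hi => by
    have h1 := hx i hi
    have h2 := hy i hi
    simp_all [co]
  zero_mem' := fun _ _ => rfl
  smul_mem' := fun c x hx i hi => by
    have h1 := hx i hi
    simp_all [co]

/-- The linear term of the potential. -/
def Aff_lin (x : UU β Ar) : UU β Ar →ₗ[ℝ] ℂ where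
  toFun v := ∑ h, (Matrix.trace (v (some (Sum.inl h)) *
      (x (some (Sum.inr h)) * x none - x none * x (some (Sum.inr h)))) -
    Matrix.trace (v (some (Sum.inr h)) *
      (x (some (Sum.inl h)) * x none - x none * x (some (Sum.inl h)))))
  map_add' v w := by
    simp only [Pi.add_apply, add_mul, Matrix.trace_add, ← Finset.sum_add_distrib]
    exact Finset.sum_congr rfl fun h _ => by ring
  map_smul' c v := by
    simp only [Pi.smul_apply, Matrix.smul_mul, Matrix.trace_smul, RingHom.id_apply,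
      Finset.smul_sum, smul_sub]

theorem Aff_Wf (x v : UU β Ar) (h0 : v none = 0) (h2 : ∀ γ γ', v γ * v γ' = 0) :
    Wf (x + v) = Wf x + Aff_lin x v := by
  simp only [Wf, mu, Aff_lin, Pi.add_apply, h0, add_zero, Finset.mul_sum, Matrix.trace_sum,
    LinearMap.coe_mk, AddHom.coe_mk, ← Finset.sum_add_distrib]
  refine Finset.sum_congr rfl fun h _ => ?_
  have c1 : ∀ A B C : Matrix β β ℂ, Matrix.trace (A * (B * C)) = Matrix.trace (B * (C * A)) :=
    fun A B C => by rw [Matrix.trace_mul_comm, mul_assoc]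
  simp only [add_mul, mul_add, mul_sub, h2, Matrix.trace_add, Matrix.trace_sub, add_zero]
  rw [c1 (x none) (v _), c1 (x none) (v _), c1 (v _) (x none), c1 (v _) (x none)]
  ring

theorem Aff_single (x : UU β Ar) (γ : Ar ⊕ Ar) (l k : β) : ∃ e : ℂ, e ≠ 0 ∧
    ∀ c : ℂ, Aff_lin x (Pi.single (some γ.swap) (Matrix.single l k c)) =
      c * (e * (x (some γ) * x none - x none * x (some γ)) k l) := by
  rcases γ with h | h
  · refine ⟨-1, by simp, fun c => ?_⟩
    simp only [Aff_lin, LinearMap.coe_mk, AddHom.coe_mk, Sum.swap_inl]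
    rw [Finset.sum_eq_single h]
    · simp [Matrix.trace_single_mul]
      ring
    · intro b _ hb
      simp [hb]
    · simp
  · refine ⟨1, by simp, fun c => ?_⟩
    simp only [Aff_lin, LinearMap.coe_mk, AddHom.coe_mk, Sum.swap_inr]
    rw [Finset.sum_eq_single h]
    · simp [Matrix.trace_single_mul]
    · intro b _ hb
      simp [hb]
    · simp

/-- The positions of the block along which we translate. -/
def Aff_J (G : Gam Ar → Bool) (sl : β → Λ) (q : Finset β) : Finset (Gam Ar × β × β) :=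
  (D.PU sl).filter fun i => i.1 ≠ none ∧ i.2.1 ∈ q ∧ i.2.2 ∉ q ∧ (G none = true → G i.1 = false)

theorem Aff_mem_L {v : UU β Ar} : v ∈ Aff_L (D.Aff_J G sl q) ↔ ∀ γ l k, v γ l k ≠ 0 →
    (D.ok γ l k = true ∧ sl l = sl k) ∧ γ ≠ none ∧ l ∈ q ∧ k ∉ q ∧
      (G none = true → G γ = false) := by
  constructor
  · intro h γ l k hne
    by_contra hc
    exact hne (h (γ, l, k) (by simpa only [Aff_J, PU, Finset.mem_filter, Finset.mem_univ,
      true_and] using hc))
  · intro h i hi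
    by_contra hne
    exact hi (by simpa only [Aff_J, PU, Finset.mem_filter, Finset.mem_univ,
      true_and] using h i.1 i.2.1 i.2.2 hne)

/-- If the linear term vanishes, the commutators with the loop preserve `V_q`. -/
theorem Aff_comm {x : UU β Ar} (hx : x ∈ D.U sl)
    (h : ∀ v ∈ Aff_L (D.Aff_J G sl q), (Aff_lin x v).re = 0) (γ : Ar ⊕ Ar)
    (hγ : G none = true → G (some γ.swap) = false) : ∀ z ∈ (Vq q : Submodule ℂ (β → ℂ)),
      (x (some γ) * x none - x none * x (some γ)).mulVec z ∈ Vq q := by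
  refine Aff_inv_iff.2 fun k hk l hl => ?_
  have hU := D.mem_U.1 hx
  have hv : ∀ m n, x none m n ≠ 0 → D.v m = D.v n := fun m n hne => by
    simpa [ok] using (hU none m n hne).1
  by_cases hok : D.ok (some γ) k l = true ∧ sl k = sl l
  · obtain ⟨e, he, hc⟩ := Aff_single x γ l k
    have hm : ∀ c : ℂ, Pi.single (some γ.swap) (Matrix.single l k c) ∈
        Aff_L (D.Aff_J G sl q) := fun c => D.Aff_mem_L.2 fun γ' l' k' hne => by
      obtain rfl : γ' = some γ.swap := by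
        by_contra hn
        exact hne (by simp [hn])
      rw [Pi.single_eq_same] at hne
      obtain ⟨rfl, rfl⟩ : l = l' ∧ k = k' := by
        by_contra hn
        exact hne (Matrix.single_apply_of_ne _ _ _ _ _ hn)
      exact ⟨⟨D.Aff_ok_swap hok.1, hok.2.symm⟩, by simp, hl, hk, hγ⟩
    have h1 := h _ (hm 1)
    have h2 := h _ (hm Complex.I)
    rw [hc] at h1 h2
    refine (mul_eq_zero.1 (Complex.ext (w := 0) ?_ ?_)).resolve_left he
    · simpa only [one_mul, Complex.zero_re] using h1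
    · simpa only [Complex.I_mul_re, neg_eq_zero, Complex.zero_im] using h2
  · rw [Matrix.sub_apply, Matrix.mul_apply, Matrix.mul_apply, Finset.sum_eq_zero,
      Finset.sum_eq_zero, sub_zero]
    · intro m _
      by_contra hne
      obtain ⟨h1, h2⟩ := mul_ne_zero_iff.1 hne
      exact hok ⟨D.Aff_ok (hU _ _ _ h2).1 (hv _ _ h1).symm rfl,
        (hU _ _ _ h1).2.trans (hU _ _ _ h2).2⟩
    · intro m _
      by_contra hne
      obtain ⟨h1, h2⟩ := mul_ne_zero_iff.1 hne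
      exact hok ⟨D.Aff_ok (hU _ _ _ h1).1 rfl (hv _ _ h2),
        (hU _ _ _ h1).2.trans (hU _ _ _ h2).2⟩

/-- Mode b: the lower block of the loop is a morphism. -/
theorem Aff_b (hk : D.IsKey th key) (hp : IsSlot sl p) (hq : q ⊆ p) {x y : UU β Ar}
    (hx : x ∈ D.U sl) (hy0 : y none = 0) (hy : y ∈ D.Ole key p (key (D.dimv q)))
    (hi : InvAll y (Vq q)) (hc : ∀ γ, ∀ z ∈ (Vq q : Submodule ℂ (β → ℂ)),
      (y (some γ) * x none - x none * y (some γ)).mulVec z ∈ Vq q) :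
    ∀ z ∈ (Vq q : Submodule ℂ (β → ℂ)), (x none).mulVec z ∈ Vq q := by
  have hU := D.mem_U.1 hx
  let c : Matrix β β ℂ := Matrix.of fun k l => if k ∈ q then 0 else x none k l
  have cz : ∀ z k, c.mulVec z k = if k ∈ q then 0 else (x none).mulVec z k := fun z k => by
    by_cases h : k ∈ q <;> simp [c, Matrix.mulVec, dotProduct, h]
  have hb : ∀ k l, c k l ≠ 0 → D.v k = D.v l := fun k l hne => by
    have : x none k l ≠ 0 := fun h => hne (by simp [c, h])
    simpa [ok] using (hU none k l this).1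
  have c1 : ∀ z, (x none).mulVec z - c.mulVec z ∈ (Vq q : Submodule ℂ (β → ℂ)) := fun z =>
    Aff_mem_Vq.2 fun k hk => by simp [cz, hk]
  have c2 : ∀ z, c.mulVec z ∈ (Vq q : Submodule ℂ (β → ℂ)) → c.mulVec z = 0 := fun z hz =>
    funext fun k => by
      by_cases h : k ∈ q
      · simp [cz, h]
      · exact Aff_mem_Vq.1 hz k h
  have c3 : ∀ γ, ∀ z ∈ (Vq q : Submodule ℂ (β → ℂ)),
      (y γ).mulVec (c.mulVec z) - c.mulVec ((y γ).mulVec z) ∈ (Vq q : Submodule ℂ (β → ℂ)) := by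
    intro γ z hz
    cases γ with
    | none => simp [hy0]
    | some γ =>
      have h1 := hc γ z hz
      rw [Matrix.sub_mulVec, ← Matrix.mulVec_mulVec, ← Matrix.mulVec_mulVec] at h1
      have h2 := hi (some γ) _ (c1 z)
      rw [Matrix.mulVec_sub] at h2
      convert Submodule.add_mem _ (Submodule.sub_mem _ h1 h2) (c1 ((y (some γ)).mulVec z)) using 1
      abel
  obtain ⟨g1, g2, g3⟩ := (D.gr_Vq q).map hb
  have hqp : (Vq q : Submodule ℂ (β → ℂ)) ≤ Vq p := fun z hz =>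
    Aff_mem_Vq.2 fun k hk => Aff_mem_Vq.1 hz k fun h => hk (hq h)
  have hI : (Vq q).map c.mulVecLin ≤ Vq (p \ q) := by
    rintro _ ⟨z, hz, rfl⟩
    refine Aff_mem_Vq.2 fun k hk => ?_
    rw [Matrix.mulVecLin_apply, cz]
    split_ifs with h
    · rfl
    · refine Finset.sum_eq_zero fun l _ => ?_
      by_contra hne
      obtain ⟨h1, h2⟩ := mul_ne_zero_iff.1 hne
      have hl : l ∈ q := by_contra fun hl => h2 (Aff_mem_Vq.1 hz l hl)
      exact hk (Finset.mem_sdiff.2 ⟨Aff_slot hp (hq hl) (hU none k l h1).2, h⟩)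
  have hIp : (Vq (p \ q) : Submodule ℂ (β → ℂ)) ≤ Vq p := fun z hz =>
    Aff_mem_Vq.2 fun k hk => Aff_mem_Vq.1 hz k fun h => hk (Finset.mem_sdiff.1 h).1
  have k1 := hy _ g2 (inf_le_left.trans hqp) fun γ z hz => ⟨hi γ z hz.1, by
    have h0 : c.mulVec z = 0 := hz.2
    have h1 := c3 γ z hz.1
    rw [h0, Matrix.mulVec_zero, zero_sub, Submodule.neg_mem_iff] at h1
    exact c2 _ h1⟩
  have hsup : Vq q ⊔ (Vq q).map c.mulVecLin ≤ Vq p := sup_le hqp (hI.trans hIp)
  have k2 := hy _ ((D.gr_Vq q).sup g1) hsup fun γ z hz => by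
    obtain ⟨z₁, h1, _, ⟨z₂, h2, rfl⟩, rfl⟩ := Submodule.mem_sup.1 hz
    rw [Matrix.mulVec_add, Matrix.mulVecLin_apply,
      ← sub_add_cancel ((y γ).mulVec (c.mulVec z₂)) (c.mulVec ((y γ).mulVec z₂)), ← add_assoc]
    exact Submodule.add_mem_sup (Submodule.add_mem _ (hi γ _ h1) (c3 γ _ h2)) ⟨_, hi γ _ h2, rfl⟩
  have l2 := (D.dimS_le_dimv hsup).trans (D.dimv_le p)
  rw [D.dimS_Vq_sup g1 hI] at k2 l2
  rw [D.dimS_Vq] at g3
  have t1 : thd th (D.dimS ((Vq q).map c.mulVecLin)) ≤ 0 := by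
    by_contra hn
    have := hk.mono _ (D.dimv_le q) _ l2 (by rw [thd_add]; omega)
    omega
  have hz := ((hk.num (D.dimv_le q) (g3 ▸ D.dimv_le q) (D.dimS_le_dimv inf_le_left) k1 t1).2
    (by rw [← g3])).2
  have hbot := D.gr_bot.eq_of_dimS g1 bot_le (D.dimS_bot.trans hz.symm)
  intro z hz
  have h0 : c.mulVec z ∈ (⊥ : Submodule ℂ (β → ℂ)) := hbot ▸ ⟨z, hz, rfl⟩
  have := c1 z
  rwa [(Submodule.mem_bot _).1 h0, sub_zero] at this

theorem Aff_poly {V : Submodule ℂ (β → ℂ)} {M : Matrix β β ℂ} (ha : ∀ z ∈ V, a.mulVec z ∈ V)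
    (hc : ∀ z ∈ V, (M * a - a * M).mulVec z ∈ V) (f : Polynomial ℂ) :
    (∀ z ∈ V, (Polynomial.aeval a f).mulVec z ∈ V) ∧ ∀ z ∈ V,
      M.mulVec ((Polynomial.aeval a f).mulVec z) - (Polynomial.aeval a f).mulVec (M.mulVec z) ∈
        V := by
  induction f using Polynomial.induction_on with
  | C c =>
    simp only [Polynomial.aeval_C, Algebra.algebraMap_eq_smul_one, Matrix.smul_mulVec,
      Matrix.one_mulVec, Matrix.mulVec_smul, sub_self]
    exact ⟨fun z hz => V.smul_mem c hz, fun _ _ => V.zero_mem⟩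
  | add f g hf hg =>
    simp only [map_add, Matrix.add_mulVec, Matrix.mulVec_add]
    refine ⟨fun z hz => V.add_mem (hf.1 z hz) (hg.1 z hz), fun z hz => ?_⟩
    convert V.add_mem (hf.2 z hz) (hg.2 z hz) using 1
    abel
  | monomial n c hf =>
    rw [pow_succ, ← mul_assoc, map_mul, Polynomial.aeval_X]
    simp only [← Matrix.mulVec_mulVec]
    refine ⟨fun z hz => hf.1 _ (ha z hz), fun z hz => ?_⟩
    have h1 := hf.1 _ (hc z hz)
    rw [Matrix.sub_mulVec, ← Matrix.mulVec_mulVec, ← Matrix.mulVec_mulVec, Matrix.mulVec_sub] at h1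
    convert V.add_mem (hf.2 _ (ha z hz)) h1 using 1
    abel

/-- Mode c: an intertwiner of maps with coprime annihilating polynomials vanishes. -/
theorem Aff_c {M : Matrix β β ℂ} {i j : I} {f : I → Polynomial ℂ}
    (hM : ∀ l k, M l k ≠ 0 → D.v l = j ∧ D.v k = i)
    (hf : ∀ l k, Polynomial.aeval a (f (D.v k)) l k = 0) (hco : IsCoprime (f i) (f j))
    (ha : ∀ z ∈ (Vq q : Submodule ℂ (β → ℂ)), a.mulVec z ∈ Vq q)
    (hc : ∀ z ∈ (Vq q : Submodule ℂ (β → ℂ)), (M * a - a * M).mulVec z ∈ Vq q) :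
    ∀ z ∈ (Vq q : Submodule ℂ (β → ℂ)), M.mulVec z ∈ Vq q := by
  refine Aff_inv_iff.2 fun k hk l hl => ?_
  by_contra hne
  obtain ⟨u, w, huw⟩ := hco
  have hz : (Pi.single l 1 : β → ℂ) ∈ (Vq q : Submodule ℂ (β → ℂ)) := Aff_mem_Vq.2 fun m hm =>
    Pi.single_eq_of_ne (fun e : m = l => hm (e ▸ hl)) _
  have h1 : (Polynomial.aeval a (f i)).mulVec (Pi.single l 1) = 0 := by
    funext m
    rw [← (hM k l hne).2]
    simpa using hf m l
  have h2 : Polynomial.aeval a (f j) * M = 0 := by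
    ext m n
    rw [Matrix.mul_apply]
    refine Finset.sum_eq_zero fun r _ => ?_
    by_cases h : M r n = 0
    · simp [h]
    · rw [← (hM r n h).1, hf, zero_mul]
  have h3 : (Polynomial.aeval a (f j)).mulVec ((Polynomial.aeval a w).mulVec (Pi.single l 1)) =
      Pi.single l 1 := by
    have := congrArg (fun g => (Polynomial.aeval a g).mulVec (Pi.single l (1 : ℂ))) huw
    simp only [map_add, map_one, Matrix.add_mulVec, Matrix.one_mulVec] at this
    rwa [map_mul, ← Matrix.mulVec_mulVec, h1, Matrix.mulVec_zero, zero_add, mul_comm, map_mul,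
      ← Matrix.mulVec_mulVec] at this
  have h4 := (Aff_poly ha hc (f j)).2 _ ((Aff_poly ha hc w).1 _ hz)
  rw [h3, Matrix.mulVec_mulVec, h2, Matrix.zero_mulVec, sub_zero] at h4
  exact hne (by simpa using Aff_mem_Vq.1 h4 k hk)

theorem Aff_key (hk : D.IsKey th key) (hp : IsSlot sl p) (hq : q ⊆ p) {x : UU β Ar}
    (hx : x ∈ D.U sl) (hm : D.Mode G (x none)) (hy : x ∈ D.OM G key p (key (D.dimv q)))
    (hi : InvAll (cut G x) (Vq q))
    (h : ∀ v ∈ Aff_L (D.Aff_J G sl q), (Aff_lin x v).re = 0) : InvAll x (Vq q) := by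
  have hG : ∀ γ, G γ = true → cut G x γ = x γ := fun γ hγ => by simp [cut, hγ]
  rcases hm with ⟨h0, h1⟩ | ⟨h0, h1, f, hf, hco⟩
  · intro γ
    cases γ with
    | some γ => exact hG _ (h1 γ) ▸ hi (some γ)
    | none =>
      refine D.Aff_b hk hp hq hx (y := cut G x) (by simp [cut, h0]) hy hi fun γ => ?_
      rw [hG _ (h1 γ)]
      exact D.Aff_comm hx h γ (by simp [h0])
  · intro γ
    cases hγ : G γ with
    | true => exact hG _ hγ ▸ hi γ
    | false =>
      have ha : ∀ z ∈ (Vq q : Submodule ℂ (β → ℂ)), (x none).mulVec z ∈ Vq q :=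
        hG _ h0 ▸ hi none
      rcases γ with _ | r | r
      · simp [h0] at hγ
      · exact D.Aff_c (fun l k hne => by simpa [ok] using (D.mem_U.1 hx _ l k hne).1) hf
          (hco r hγ) ha (D.Aff_comm hx h (Sum.inl r) fun _ => (h1 r).symm.trans hγ)
      · exact D.Aff_c (fun l k hne => by simpa [ok] using (D.mem_U.1 hx _ l k hne).1) hf
          (hco r ((h1 r).trans hγ)).symm ha
          (D.Aff_comm hx h (Sum.inr r) fun _ => (h1 r).trans hγ)

theorem aff (hk : D.IsKey th key) (hp : IsSlot sl p) (hq : q ⊆ p)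
    (h : D.last key p < key (D.dimv q)) (hm : D.Mode G a) (hs : Sat p P) (hP : LC P) :
    Subsingleton (Hc (D.Bs sl a P ∩ {x | x ∈ D.Ole key p (key (D.dimv q) - 1) ∧
      x ∈ D.OM G key p (key (D.dimv q)) ∧ InvAll (cut G x) (Vq q)})) := by
  have hqp : (Vq q : Submodule ℂ (β → ℂ)) ≤ Vq p := fun z hz =>
    Aff_mem_Vq.2 fun k hk => Aff_mem_Vq.1 hz k fun h => hk (hq h)
  have iff1 : ∀ x, x ∈ D.OM G key p (key (D.dimv q)) → InvAll (cut G x) (Vq q) →
      (x ∈ D.Ole key p (key (D.dimv q) - 1) ↔ ¬ InvAll x (Vq q)) := fun x h1 h2 => by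
    constructor
    · intro h3 h4
      have := h3 _ (D.gr_Vq q) hqp h4
      rw [D.dimS_Vq] at this
      omega
    · intro h3 S s1 s2 s3
      by_contra hn
      have h4 := h1 S s1 s2 (s3.cut G)
      exact h3 (D.uniq hk h1 s1 (D.gr_Vq q) s2 hqp (s3.cut G) h2 (by omega)
        (by rw [D.dimS_Vq]) ▸ s3)
  have e : D.Bs sl a P ∩ {x | x ∈ D.Ole key p (key (D.dimv q) - 1) ∧
      x ∈ D.OM G key p (key (D.dimv q)) ∧ InvAll (cut G x) (Vq q)} =
      {x | x ∈ D.U sl ∧ x none = a ∧ x ∈ P ∧ ¬ InvAll x (Vq q) ∧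
        x ∈ D.OM G key p (key (D.dimv q)) ∧ InvAll (cut G x) (Vq q)} ∩ {x | 0 ≤ (Wf x).re} :=
    Set.ext fun x => ⟨fun ⟨⟨h1, h2, h3, h4⟩, h5, h6, h7⟩ =>
      ⟨⟨h1, h2, h3, (iff1 x h6 h7).1 h5, h6, h7⟩, h4⟩, fun ⟨⟨h1, h2, h3, h5, h6, h7⟩, h4⟩ =>
      ⟨⟨h1, h2, h3, h4⟩, (iff1 x h6 h7).2 h5, h6, h7⟩⟩
  have hl : LC (D.Bs sl a P ∩ {x | x ∈ D.Ole key p (key (D.dimv q) - 1) ∧
      x ∈ D.OM G key p (key (D.dimv q)) ∧ InvAll (cut G x) (Vq q)}) :=
    ((D.lc_Bs sl a hP).openIn ⟨_, (D.isOpen_Ole key p (key (D.dimv q) - 1)).inter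
      (D.isOpen_OM G key p (key (D.dimv q))), rfl⟩).closedIn
      ⟨_, (isClosed_invAll (Vq q)).preimage (continuous_cut G), Set.ext fun x =>
        ⟨fun h => ⟨⟨h.1, h.2.1, h.2.2.1⟩, h.2.2.2⟩, fun h => ⟨h.1.1, h.1.2.1, h.1.2.2, h.2⟩⟩⟩
  rw [e] at hl ⊢
  have v0 : ∀ v ∈ Aff_L (D.Aff_J G sl q), v none = 0 := fun v hv => by
    ext l k
    by_contra hne
    exact (D.Aff_mem_L.1 hv none l k hne).2.1 rfl
  refine Aff_vanish (Aff_L (D.Aff_J G sl q)) ?_ ?_ hl
  · rintro x ⟨h1, h2, h3, h4, h5, h6⟩ v hv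
    have hv' := D.Aff_mem_L.1 hv
    have r0 : ∀ γ l k, l ∉ q → v γ l k = 0 := fun γ l k hl =>
      by_contra fun hne => hl (hv' γ l k hne).2.2.1
    have hU : x + v ∈ D.U sl := (Aff_L (D.PU sl)).add_mem h1
      (D.mem_U.2 fun γ l k hne => (hv' γ l k hne).1)
    have h6' : InvAll (cut G (x + v)) (Vq q) := fun γ => Aff_inv_iff.2 fun k hk l hl => by
      have := Aff_inv_iff.1 (h6 γ) k hk l hl
      cases hγ : G γ <;> simp_all [cut]
    refine ⟨hU, by rw [Pi.add_apply, v0 v hv, add_zero, h2], hs x _ (fun γ l k hk => ?_) h3,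
      fun hn => h4 fun γ => Aff_inv_iff.2 fun k hk l hl => ?_, ?_, h6'⟩
    · have : v γ l k = 0 := by_contra fun hne =>
        hk (Aff_slot hp (hq (hv' γ l k hne).2.2.1) (hv' γ l k hne).1.2.symm)
      simp [this]
    · simpa [r0 γ k l hk] using Aff_inv_iff.1 (hn γ) k hk l hl
    · have e2 : trunc (D.PU (spl sl q)) (cut G (x + v)) = trunc (D.PU (spl sl q)) (cut G x) := by
        funext γ
        ext l k
        simp only [trunc, Matrix.of_apply]
        split_ifs with hJ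
        · have : v γ l k = 0 := by_contra fun hne => by
            have h7 := hv' γ l k hne
            simp [PU, spl, h7.2.2.1, h7.2.2.2.1] at hJ
          cases hγ : G γ <;> simp [cut, hγ, this]
        · rfl
      refine (D.split_iff hk hp hq h (D.mem_PP.2 ⟨cut_mem_LinS G hU, h6'⟩)).2 ?_
      rw [e2]
      exact (D.split_iff hk hp hq h (D.mem_PP.2 ⟨cut_mem_LinS G h1, h6⟩)).1 h5
  · rintro x ⟨h1, h2, -, h4, h5, h6⟩
    refine ⟨Complex.reLm ∘ₗ Aff_lin x ∘ₗ Submodule.subtype _, fun h0 => h4 ?_, fun v => ?_⟩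
    · exact D.Aff_key hk hp hq h1 (h2 ▸ hm) h5 h6 fun v hv => LinearMap.congr_fun h0 ⟨v, hv⟩
    · rw [Aff_Wf x v (v0 v v.2) fun γ γ' => ?_, Complex.add_re]
      · rfl
      · ext l k
        rw [Matrix.mul_apply]
        refine Finset.sum_eq_zero fun m _ => ?_
        by_contra hne
        obtain ⟨m1, m2⟩ := mul_ne_zero_iff.1 hne
        exact (D.Aff_mem_L.1 v.2 _ _ _ m1).2.2.2.1 (D.Aff_mem_L.1 v.2 _ _ _ m2).2.2.1

end HD

end Pool.Agent.HK
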