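import Pool.Agent.P.MP_1206ce_ag.HG.Stab
import Pool.Agent.P.MP_1206ce_ag.AS.Euclid

/-! The vanishing lemma V: definitions. -/

open scoped Topology
open Filter Set

set_option linter.unusedSectionVars false

noncomputable section

namespace Pool.Agent.HK

namespace HD

variable {β I Ar τ Λ Λ' : Type} [Fintype β] [DecidableEq β] [Fintype I] [DecidableEq I] [Fintype Ar]
  [DecidableEq Ar] [Fintype τ] [DecidableEq τ] [DecidableEq Λ] [DecidableEq Λ'] (D : HD β I Ar τ)

/-- Keep only the arrows in `G`. -/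
def cut (G : Gam Ar → Bool) (x : UU β Ar) : UU β Ar := fun γ => if G γ then x γ else 0

/-- Membership in `P` only depends on the columns outside `p`. -/
def Sat (p : Finset β) (P : Set (UU β Ar)) : Prop :=
  ∀ x y : UU β Ar, (∀ γ l k, k ∉ p → x γ l k = y γ l k) → x ∈ P → y ∈ P

/-- The two modes: forget the loop, or forget arrows between vertices where the loop `a` has
coprime annihilating polynomials. -/
def Mode (G : Gam Ar → Bool) (a : Matrix β β ℂ) : Prop :=
  (G none = false ∧ ∀ γ, G (some γ) = true) ∨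
  (G none = true ∧ (∀ h, G (some (Sum.inl h)) = G (some (Sum.inr h))) ∧ ∃ f : I → Polynomial ℂ,
    (∀ l k, Polynomial.aeval a (f (D.v k)) l k = 0) ∧
    ∀ h, G (some (Sum.inl h)) = false → IsCoprime (f (D.s h)) (f (D.t h)))

/-- Slot diagonal points with loop `a`, in `P`, where the potential has nonnegative real part. -/
def Bs (sl : β → Λ) (a : Matrix β β ℂ) (P : Set (UU β Ar)) : Set (UU β Ar) :=
  {x | x ∈ D.U sl ∧ x none = a ∧ x ∈ P ∧ 0 ≤ (Wf x).re}

/-- The condition `Ole` for the arrows in `G`. -/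
def OM (G : Gam Ar → Bool) (key : (I → ℕ) → ℤ) (p : Finset β) (κ : ℤ) : Set (UU β Ar) :=
  cut G ⁻¹' D.Ole key p κ

/-- The statement of Lemma V for the slot `p`. -/
def LV (G : Gam Ar → Bool) (key : (I → ℕ) → ℤ) (sl : β → Λ) (p : Finset β) : Prop :=
  ∀ (a : Matrix β β ℂ) (P : Set (UU β Ar)), D.Mode G a → Sat p P → LC P →
    Subsingleton (Hc (D.Bs sl a P ∩ (D.Ole key p (D.last key p) \ D.OM G key p (D.last key p))))

/-- Semistability for the tripled quiver. -/
def SS (th : I → ℤ) : Set (UU β Ar) := {x | ∀ S, D.Gr S → InvAll x S → thd th (D.dimS S) ≤ 0}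

/-- Fitting form with respect to the decomposition of the basis into `q` and its complement. -/
def Fit (q : Finset β) (a : Matrix β β ℂ) : Prop :=
  (∀ l k, a l k ≠ 0 → (l ∈ q ↔ k ∈ q)) ∧ ∃ f₀ f₁ : Polynomial ℂ, IsCoprime f₀ f₁ ∧
    (∀ l k, k ∈ q → Polynomial.aeval a f₀ l k = 0) ∧ ∀ l k, k ∉ q → Polynomial.aeval a f₁ l k = 0

instance lcs_UU : LocallyCompactSpace (UU β Ar) :=
  inferInstanceAs (LocallyCompactSpace (Gam Ar → β → β → ℂ))

theorem continuous_cut (G : Gam Ar → Bool) : Continuous (cut G : UU β Ar → UU β Ar) :=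
  continuous_pi fun γ => by
    unfold cut
    split_ifs
    · exact continuous_apply γ
    · exact continuous_const

theorem InvAll.cut {x : UU β Ar} {S : Submodule ℂ (β → ℂ)} (h : InvAll x S) (G : Gam Ar → Bool) :
    InvAll (cut G x) S := fun γ z hz => by
  unfold HD.cut
  split_ifs
  · exact h γ z hz
  · simp

theorem OM_subset (G : Gam Ar → Bool) (key : (I → ℕ) → ℤ) (p : Finset β) (κ : ℤ) :
    D.OM G key p κ ⊆ D.Ole key p κ := fun _ hx S h1 h2 h3 => hx S h1 h2 (h3.cut G)

theorem isOpen_OM (G : Gam Ar → Bool) (key : (I → ℕ) → ℤ) (p : Finset β) (κ : ℤ) :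
    IsOpen (D.OM G key p κ) := (D.isOpen_Ole key p κ).preimage (continuous_cut G)

theorem Ole_mono (key : (I → ℕ) → ℤ) (p : Finset β) {κ κ' : ℤ} (h : κ ≤ κ') :
    D.Ole key p κ ⊆ D.Ole key p κ' := fun _ hx S h1 h2 h3 => (hx S h1 h2 h3).trans h

theorem cut_trunc (G : Gam Ar → Bool) (J : Finset (Gam Ar × β × β)) (x : UU β Ar) :
    cut G (trunc J x) = trunc J (cut G x) := by
  funext γ
  ext l k
  cases h : G γ <;> simp [cut, trunc, h]

theorem cut_mem_LinS (G : Gam Ar → Bool) {J : Finset (Gam Ar × β × β)} {x : UU β Ar}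
    (hx : x ∈ LinS co J) : cut G x ∈ LinS co J := fun i hi => by
  have := hx i hi
  cases h : G i.1 <;> simp_all [cut, co]

theorem cut_act (G : Gam Ar → Bool) (u : Matrix (β ⊕ τ) (β ⊕ τ) ℂ) (x : UU β Ar) :
    cut G (D.act u x) = D.act u (cut G x) := by
  funext γ
  cases h : G γ <;> simp [cut, act, h]

theorem isClosed_LinS_co (J : Finset (Gam Ar × β × β)) :
    IsClosed (LinS co J : Set (UU β Ar)) := by
  have : (LinS co J : Set (UU β Ar)) = ⋂ i, ⋂ _ : i ∉ J, {x | x i.1 i.2.1 i.2.2 = 0} := by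
    ext x
    simp [LinS, co]
  rw [this]
  exact isClosed_iInter fun i => isClosed_iInter fun _ =>
    isClosed_eq (by fun_prop) continuous_const

theorem mem_U {sl : β → Λ} {x : UU β Ar} :
    x ∈ D.U sl ↔ ∀ γ l k, x γ l k ≠ 0 → D.ok γ l k = true ∧ sl l = sl k := by
  constructor
  · intro h γ l k hne
    by_contra hc
    exact hne (h (γ, l, k) (by simpa [PU] using hc))
  · intro h i hi
    by_contra hne
    exact hi (by simpa [PU] using h i.1 i.2.1 i.2.2 hne)

theorem lc_Bs (sl : β → Λ) (a : Matrix β β ℂ) {P : Set (UU β Ar)} (hP : LC P) :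
    LC (D.Bs sl a P) :=
  hP.closedIn ⟨D.U sl ∩ ({x | x none = a} ∩ {x | 0 ≤ (Wf x).re}),
    (isClosed_LinS_co _).inter ((isClosed_eq (continuous_apply none) continuous_const).inter
      (isClosed_le continuous_const (Complex.continuous_re.comp continuous_Wf))),
    Set.ext fun _ => ⟨fun h => ⟨h.2.2.1, h.1, h.2.1, h.2.2.2⟩,
      fun h => ⟨h.2.1, h.2.2.1, h.1, h.2.2.2⟩⟩⟩

theorem isClosed_invAll (S : Submodule ℂ (β → ℂ)) : IsClosed {x : UU β Ar | InvAll x S} := by
  have : {x : UU β Ar | InvAll x S} =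
      ⋂ γ, ⋂ z, ⋂ _ : z ∈ S, (fun x : UU β Ar => (x γ).mulVec z) ⁻¹' S := by
    ext x
    simp [InvAll]
  rw [this]
  exact isClosed_iInter fun γ => isClosed_iInter fun z => isClosed_iInter fun _ =>
    S.closed_of_finiteDimensional.preimage ((continuous_apply γ).matrix_mulVec continuous_const)

end HD

end Pool.Agent.HK
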