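import Pool.Agent.P.MP_1206ce_ag.LV.Key

/-! Fibring a stratum over the Grassmannian, and conjugation. -/

open scoped Topology
open Filter Set

set_option linter.unusedSectionVars false

noncomputable section

namespace Pool.Agent.HK

namespace HD

variable {β I Ar τ Λ Λ' : Type} [Fintype β] [DecidableEq β] [Fintype I] [DecidableEq I] [Fintype Ar]
  [DecidableEq Ar] [Fintype τ] [DecidableEq τ] [DecidableEq Λ] [DecidableEq Λ'] (D : HD β I Ar τ)

variable {th : I → ℤ} {key : (I → ℕ) → ℤ} {G : Gam Ar → Bool} {sl : β → Λ} {p q : Finset β}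
  {a : Matrix β β ℂ} {P : Set (UU β Ar)}

/-- The fixed vectors of a matrix. -/
def Fib_fix (M : Matrix β β ℂ) : Submodule ℂ (β → ℂ) := LinearMap.ker (1 - M).mulVecLin

theorem Fib_mem_fix {M : Matrix β β ℂ} {z : β → ℂ} : z ∈ Fib_fix M ↔ M.mulVec z = z := by
  rw [Fib_fix, LinearMap.mem_ker, Matrix.mulVecLin_apply, Matrix.sub_mulVec, Matrix.one_mulVec,
    sub_eq_zero, eq_comm]

theorem Fib_ext {M N : Matrix β β ℂ} (h : ∀ z, M.mulVec z = N.mulVec z) : M = N :=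
  Matrix.toLin'.injective (LinearMap.ext h)

theorem Fib_inv_iff {M N : Matrix β β ℂ} (hM : M * M = M) :
    (1 - M) * N * M = 0 ↔ ∀ z ∈ Fib_fix M, N.mulVec z ∈ Fib_fix M := by
  have e : ∀ z, ((1 - M) * N * M).mulVec z =
      N.mulVec (M.mulVec z) - M.mulVec (N.mulVec (M.mulVec z)) := fun z => by
    rw [← Matrix.mulVec_mulVec, ← Matrix.mulVec_mulVec, Matrix.sub_mulVec, Matrix.one_mulVec]
  constructor
  · intro h z hz
    have h1 := e z
    rw [h, Matrix.zero_mulVec, Fib_mem_fix.1 hz] at h1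
    exact Fib_mem_fix.2 (sub_eq_zero.1 h1.symm).symm
  · intro h
    refine Fib_ext fun z => ?_
    rw [e, Matrix.zero_mulVec, Fib_mem_fix.1 (h _ (Fib_mem_fix.2 ?_)), sub_self]
    rw [Matrix.mulVec_mulVec, hM]

theorem Fib_mul_of_le {M N : Matrix β β ℂ} (hM : M * M = M) (h : Fib_fix M ≤ Fib_fix N) :
    N * M = M :=
  Fib_ext fun z => by
    rw [← Matrix.mulVec_mulVec]
    exact Fib_mem_fix.1 (h (Fib_mem_fix.2 (by rw [Matrix.mulVec_mulVec, hM])))

theorem Fib_eq_of_fix {M N : Matrix β β ℂ} (hM : M * M = M) (hN : N * N = N) (sM : star M = M)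
    (sN : star N = N) (h : Fib_fix M = Fib_fix N) : M = N := by
  have h1 := congrArg star (Fib_mul_of_le hM h.le)
  rw [star_mul, sM, sN, Fib_mul_of_le hN h.ge] at h1
  exact h1.symm

/-- The coordinate projector. -/
def Fib_pi (q : Finset β) : Matrix β β ℂ := Matrix.diagonal fun k => if k ∈ q then 1 else 0

/-- The conjugated projector. -/
def Fib_pr (q : Finset β) (g : Matrix β β ℂ) : Matrix β β ℂ := g * Fib_pi q * star g

theorem Fib_pi_mulVec (q : Finset β) (z : β → ℂ) (k : β) :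
    (Fib_pi q).mulVec z k = if k ∈ q then z k else 0 := by
  rw [Fib_pi, Matrix.mulVec_diagonal]
  split_ifs <;> simp

theorem Fib_pi_mul (q : Finset β) : Fib_pi q * Fib_pi q = Fib_pi q := by
  rw [Fib_pi, Matrix.diagonal_mul_diagonal]
  congr 1
  funext k
  split_ifs <;> simp

theorem Fib_pi_star (q : Finset β) : star (Fib_pi q) = Fib_pi q := by
  rw [Fib_pi, Matrix.star_eq_conjTranspose, Matrix.diagonal_conjTranspose]
  congr 1
  funext k
  simp only [Pi.star_apply]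
  split_ifs <;> simp

theorem Fib_pr_mul (q : Finset β) {g : Matrix β β ℂ} (hg : star g * g = 1) :
    Fib_pr q g * Fib_pr q g = Fib_pr q g := by
  rw [Fib_pr, Basic_conj_mul hg, Fib_pi_mul]

theorem Fib_pr_star (q : Finset β) (g : Matrix β β ℂ) : star (Fib_pr q g) = Fib_pr q g := by
  rw [Fib_pr, star_mul, star_mul, star_star, Fib_pi_star, mul_assoc]

theorem Fib_fix_pr (q : Finset β) {g : Matrix β β ℂ} (hg : star g * g = 1) :
    Fib_fix (Fib_pr q g) = (Vq q).map g.mulVecLin := by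
  ext z
  rw [Fib_mem_fix, Fib_pr, ← Matrix.mulVec_mulVec, ← Matrix.mulVec_mulVec, Submodule.mem_map]
  constructor
  · intro h
    exact ⟨_, Basic_mem_Vq.2 fun k hk => by rw [Fib_pi_mulVec, if_neg hk], h⟩
  · rintro ⟨w, hw, rfl⟩
    rw [Matrix.mulVecLin_apply, Matrix.mulVec_mulVec w, hg, Matrix.one_mulVec]
    congr 1
    funext k
    rw [Fib_pi_mulVec]
    split_ifs with hk
    · rfl
    · exact (Basic_mem_Vq.1 hw k hk).symm

theorem Fib_exists {x : UU β Ar} {κ : ℤ} (hx : x ∈ D.Ole key p κ \ D.Ole key p (κ - 1)) :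
    ∃ S, D.Gr S ∧ S ≤ Vq p ∧ InvAll x S ∧ key (D.dimS S) = κ := by
  by_contra hn
  refine hx.2 fun S h1 h2 h3 => ?_
  have h4 := hx.1 S h1 h2 h3
  have h5 : key (D.dimS S) ≠ κ := fun h => hn ⟨S, h1, h2, h3, h⟩
  omega

theorem Fib_spec (hp : IsSlot sl p) (hq : q ⊆ p) {u : Matrix (β ⊕ τ) (β ⊕ τ) ℂ}
    (hu : u ∈ D.K sl) : D.Gr (Fib_fix (Fib_pr q (gau u))) ∧ Fib_fix (Fib_pr q (gau u)) ≤ Vq p ∧
      D.dimS (Fib_fix (Fib_pr q (gau u))) = D.dimv q ∧ ∀ x : UU β Ar,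
        (∀ γ, (1 - Fib_pr q (gau u)) * x γ * Fib_pr q (gau u) = 0) ↔
          InvAll x (Fib_fix (Fib_pr q (gau u))) := by
  have hu1 := D.K_subset sl hu
  have hg := D.Basic_star_gau hu1
  obtain ⟨h1, h2, -⟩ := D.map_gau hu1 (D.gr_Vq q)
  refine ⟨?_, ?_, ?_, fun x => forall_congr' fun γ => Fib_inv_iff (Fib_pr_mul q hg)⟩
  · rwa [Fib_fix_pr q hg]
  · rw [Fib_fix_pr q hg, ← D.map_gau_slot hp hu]
    exact Submodule.map_mono fun z hz => Basic_mem_Vq.2 fun k hk =>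
      Basic_mem_Vq.1 hz k fun h => hk (hq h)
  · rw [Fib_fix_pr q hg, h2, D.dimS_Vq]

theorem Fib_act_star {u : Matrix (β ⊕ τ) (β ⊕ τ) ℂ} (hu : u ∈ D.K sl) (x : UU β Ar) :
    D.act (star u) (D.act u x) = x ∧ D.act u (D.act (star u) x) = x := by
  have h := D.isAct_K sl
  rw [← h.mul _ (h.grp.star u hu) _ hu, ← h.mul _ hu _ (h.grp.star u hu), h.grp.star_mul hu,
    h.grp.mul_star hu, h.one]
  exact ⟨rfl, rfl⟩

theorem Fib_homeo {u : Matrix (β ⊕ τ) (β ⊕ τ) ℂ} (hu : u ∈ D.K sl) (B : Set (UU β Ar)) :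
    HomeoOn (D.act u) (D.act (star u)) (D.act u ⁻¹' B) B := by
  have h := D.isAct_K sl
  refine ⟨(h.continuous hu).continuousOn, (h.continuous (h.grp.star u hu)).continuousOn,
    fun _ hx => hx, fun x hx => ?_, fun x _ => (D.Fib_act_star hu x).1,
    fun x _ => (D.Fib_act_star hu x).2⟩
  rwa [mem_preimage, (D.Fib_act_star hu x).2]

theorem Fib_inv_mem {u : Matrix (β ⊕ τ) (β ⊕ τ) ℂ} (hu : u ∈ D.K sl) {B : Set (UU β Ar)}
    (hB : InvX (D.K sl) D.act B) (x : UU β Ar) : D.act u x ∈ B ↔ x ∈ B := by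
  refine ⟨fun h => ?_, hB u hu x⟩
  have := hB _ ((D.isAct_K sl).grp.star u hu) _ h
  rwa [(D.Fib_act_star hu x).1] at this

theorem Fib_aeval {g : Matrix β β ℂ} (hg : star g * g = 1) (hg' : g * star g = 1)
    (a : Matrix β β ℂ) (f : Polynomial ℂ) :
    Polynomial.aeval (g * a * star g) f = g * Polynomial.aeval a f * star g := by
  have hp : ∀ n : ℕ, (g * a * star g) ^ n = g * a ^ n * star g := fun n => by
    induction n with
    | zero => rw [pow_zero, pow_zero, mul_one, hg']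
    | succ n ih => rw [pow_succ, ih, Basic_conj_mul hg, pow_succ]
  induction f using Polynomial.induction_on' with
  | add f f' h h' => rw [map_add, map_add, h, h', mul_add, add_mul]
  | monomial n c =>
    rw [Polynomial.aeval_monomial, Polynomial.aeval_monomial, hp, ← Algebra.smul_def,
      ← Algebra.smul_def, mul_smul_comm, smul_mul_assoc]

theorem Fib_sat (hp : IsSlot sl p) {u : Matrix (β ⊕ τ) (β ⊕ τ) ℂ} (hu : u ∈ D.K sl)
    (hs : Sat p P) : Sat p (D.act u ⁻¹' P) := by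
  intro x y hxy hx
  refine hs _ _ (fun γ l k hk => ?_) hx
  obtain ⟨j, rfl⟩ := hp
  simp only [act, Matrix.smul_apply, Basic_entry]
  congr 1
  refine Finset.sum_congr rfl fun k' _ => Finset.sum_congr rfl fun l' _ => ?_
  by_cases h0 : gau u k k' = 0
  · simp [h0]
  · rw [hxy γ l' k']
    have := (D.gau_block hu h0).2
    simpa [← this] using hk

/-- Fibring over the unique invariant subspace of key `κ`. The pairs `(x, Π)` with `x ∈ A`, `Π` in
the compact set of the projectors `star (gau u) * π_q * gau u`, `u ∈ K sl`, and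
`(1 - Π) * φ x γ * Π = 0` form a set that maps properly and bijectively to `A`. -/
theorem fib (hk : D.IsKey th key) (hp : IsSlot sl p) {κ : ℤ} {A : Set (UU β Ar)} (hA : LC A)
    {φ : UU β Ar → UU β Ar} (hφ : Continuous φ)
    (hin : ∀ x ∈ A, φ x ∈ D.Ole key p κ \ D.Ole key p (κ - 1))
    (h : ∀ S, D.Gr S → S ≤ Vq p → key (D.dimS S) = κ →
      Subsingleton (Hc (A ∩ {x | InvAll (φ x) S}))) : Subsingleton (Hc A) := by
  rcases A.eq_empty_or_nonempty with rfl | ⟨x₀, hx₀⟩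
  · infer_instance
  obtain ⟨S₀, -, hle₀, -, hκ₀⟩ := D.Fib_exists (hin x₀ hx₀)
  obtain ⟨q, hq, hdq⟩ := D.exists_dimv (D.dimS_le_dimv hle₀)
  have hκq : key (D.dimv q) = κ := hdq ▸ hκ₀
  have hK : IsCompact (D.K sl) := (isGrp_KG _).isCompact
  have hcg : Continuous (gau : Matrix (β ⊕ τ) (β ⊕ τ) ℂ → Matrix β β ℂ) :=
    continuous_id.matrix_submatrix _ _
  set Gq : Set (Matrix β β ℂ) := (fun u => Fib_pr q (gau u)) '' D.K sl with hGq
  have hG : IsCompact Gq := hK.image ((hcg.mul continuous_const).mul hcg.star)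
  set F : Set (UU β Ar × Matrix β β ℂ) := {y | ∀ γ, (1 - y.2) * φ y.1 γ * y.2 = 0} with hF
  have hFc : IsClosed F := by
    rw [hF, ofPred_forall]
    exact isClosed_iInter fun γ => isClosed_eq (((continuous_const.sub continuous_snd).mul
      ((continuous_apply γ).comp (hφ.comp continuous_fst))).mul continuous_snd) continuous_const
  have hLC : LC (A ×ˢ Gq ∩ F) := (hA.prod (LC.of_isCompact hG)).closedIn ⟨F, hFc, rfl⟩
  have hpr : ProperOn Prod.fst (A ×ˢ Gq ∩ F) A := by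
    refine ⟨continuous_fst.continuousOn, fun y hy => hy.1.1, fun C hC hCA => ?_⟩
    have : A ×ˢ Gq ∩ F ∩ Prod.fst ⁻¹' C = C ×ˢ Gq ∩ F :=
      Set.ext fun y => ⟨fun hy => ⟨⟨hy.2, hy.1.1.2⟩, hy.1.2⟩,
        fun hy => ⟨⟨⟨hCA hy.1.1, hy.1.2⟩, hy.2⟩, hy.1.1⟩⟩
    rw [this]
    exact (hC.prod hG).inter_right hFc
  have hb : BijOn Prod.fst (A ×ˢ Gq ∩ F) A := by
    refine ⟨hpr.2.1, ?_, fun x hx => ?_⟩
    · rintro ⟨x, _⟩ ⟨⟨hx, u, hu, rfl⟩, h1⟩ ⟨x', _⟩ ⟨⟨-, u', hu', rfl⟩, h2⟩ (rfl : x = x')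
      obtain ⟨a1, a2, a3, a4⟩ := D.Fib_spec hp hq hu
      obtain ⟨b1, b2, b3, b4⟩ := D.Fib_spec hp hq hu'
      refine Prod.ext rfl (Fib_eq_of_fix (Fib_pr_mul q (D.Basic_star_gau (D.K_subset sl hu)))
        (Fib_pr_mul q (D.Basic_star_gau (D.K_subset sl hu'))) (Fib_pr_star _ _)
        (Fib_pr_star _ _) ?_)
      exact D.uniq hk (hin x hx).1 a1 b1 a2 b2 ((a4 _).1 h1) ((b4 _).1 h2) (a3 ▸ hκq) (b3 ▸ hκq)
    · obtain ⟨S, hS, hle, hi, hκ⟩ := D.Fib_exists (hin x hx)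
      have hd : D.dimS S = D.dimv q := hk.inj _ ((D.dimS_le_dimv hle).trans (D.dimv_le p)) _
        (D.dimv_le q) (hκ.trans hκq.symm)
      obtain ⟨u, hu, hm, -⟩ := D.exists_conj hp hq hS hle hd
      have hu' := (isGrp_KG _).star u hu
      refine ⟨(x, Fib_pr q (gau (star u))), ⟨⟨hx, star u, hu', rfl⟩, ?_⟩, rfl⟩
      refine ((D.Fib_spec hp hq hu').2.2.2 _).2 ?_
      rwa [Fib_fix_pr q (D.Basic_star_gau (D.K_subset sl hu')), ← hm, ← Submodule.map_comp,
        ← Matrix.mulVecLin_mul, gau_star, D.Basic_star_gau (D.K_subset sl hu),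
        Matrix.mulVecLin_one, Submodule.map_id]
  obtain ⟨g, hg⟩ := hpr.exists_homeoOn hA hb
  refine hg.symm.subsingleton (vanish hLC continuous_snd.continuousOn fun b => ?_)
  by_cases hb' : b ∈ Gq
  · obtain ⟨u, hu, rfl⟩ := hb'
    obtain ⟨a1, a2, a3, a4⟩ := D.Fib_spec hp hq hu
    refine HomeoOn.subsingleton (f := Prod.fst) (g := fun x => (x, Fib_pr q (gau u))) ?_
      (h _ a1 a2 (a3 ▸ hκq))
    refine ⟨continuous_fst.continuousOn, (continuous_id.prodMk continuous_const).continuousOn,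
      ?_, fun x hx => ⟨⟨⟨hx.1, u, hu, rfl⟩, (a4 _).2 hx.2⟩, rfl⟩, ?_, fun _ _ => rfl⟩
    · rintro ⟨x, _⟩ ⟨⟨⟨hx, -⟩, h1⟩, rfl⟩
      exact ⟨hx, (a4 _).1 h1⟩
    · rintro ⟨x, _⟩ ⟨-, rfl⟩
      rfl
  · have : A ×ˢ Gq ∩ F ∩ Prod.snd ⁻¹' {b} = ∅ :=
      eq_empty_of_forall_notMem fun y hy => hb' (hy.2 ▸ hy.1.1.2)
    rw [this]
    infer_instance

/-- Conjugating a graded subspace of the slot to a coordinate subspace. -/
theorem conj (hp : IsSlot sl p) (hq : q ⊆ p) {S : Submodule ℂ (β → ℂ)} (hS : D.Gr S)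
    (hle : S ≤ Vq p) (hd : D.dimS S = D.dimv q) (hm : D.Mode G a) (hs : Sat p P) (hP : LC P) :
    ∃ (a' : Matrix β β ℂ) (P' : Set (UU β Ar)) (c : UU β Ar → UU β Ar),
      D.Mode G a' ∧ Sat p P' ∧ LC P' ∧ (∀ x, cut G (c x) = c (cut G x)) ∧
      (∀ x, InvAll (c x) (Vq q) ↔ InvAll x S) ∧
      (∀ x (key : (I → ℕ) → ℤ) κ, c x ∈ D.Ole key p κ ↔ x ∈ D.Ole key p κ) ∧
      ∀ Q : Set (UU β Ar), Subsingleton (Hc (D.Bs sl a' P' ∩ Q)) →
        Subsingleton (Hc (D.Bs sl a P ∩ c ⁻¹' Q)) := by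
  obtain ⟨u, hu, hmap, hrr⟩ := D.exists_conj hp hq hS hle hd
  have hu1 := D.K_subset sl hu
  have hu' := (isGrp_KG _).star u hu
  have hg := D.Basic_star_gau hu1
  have hg' : gau u * star (gau u) = 1 := mul_eq_one_comm.1 hg
  have hact : ∀ (x : UU β Ar) γ, D.act u x γ = gau u * x γ * star (gau u) := fun x γ => by
    simp [act, Basic_chr, hrr]
  refine ⟨gau u * a * star (gau u), D.act (star u) ⁻¹' P, D.act u, ?_, D.Fib_sat hp hu' hs,
    LC.of_homeoOn (D.Fib_homeo hu' P) hP, D.cut_act G u, fun x => ?_,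
    fun x key κ => D.Fib_inv_mem hu (D.invX_Ole hp key κ) x, fun Q hQ => ?_⟩
  · rcases hm with hm | ⟨h1, h2, f, h3, h4⟩
    · exact Or.inl hm
    · refine Or.inr ⟨h1, h2, f, fun l k => ?_, h4⟩
      rw [Fib_aeval hg hg', Basic_entry]
      refine Finset.sum_eq_zero fun k' _ => Finset.sum_eq_zero fun l' _ => ?_
      by_cases h0 : gau u k k' = 0
      · simp [h0]
      · rw [(D.gau_block hu h0).1, h3, mul_zero, zero_mul]
  · rw [← hmap]
    exact forall_congr' fun γ => ((D.map_gau hu1 hS).2.2 x γ).symm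
  · have e : D.Bs sl a P = D.act u ⁻¹' D.Bs sl (gau u * a * star (gau u))
        (D.act (star u) ⁻¹' P) := by
      ext x
      simp only [Bs, mem_preimage, mem_ofPred_eq]
      rw [D.Fib_inv_mem hu (D.invX_U sl), (D.Fib_act_star hu x).1, D.Wf_act hu1, hact]
      refine and_congr_right fun _ => and_congr_left fun _ => ⟨fun h => by rw [h], fun h => ?_⟩
      have := congrArg (fun M => star (gau u) * M * gau u) h
      simpa only [← mul_assoc, hg, one_mul, mul_assoc _ (star (gau u)) (gau u), mul_one] using this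
    rw [e, ← preimage_inter]
    exact (D.Fib_homeo hu _).subsingleton hQ

end HD

end Pool.Agent.HK
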