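import Pool.Agent.P.MP_1206ce_ag.LV.Defs

/-! Uniqueness of the destabilising subspace and splitting of the conditions `Ole`. -/

open scoped Topology
open Filter Set

set_option linter.unusedSectionVars false

noncomputable section

namespace Pool.Agent.HK

namespace HD

variable {β I Ar τ Λ Λ' : Type} [Fintype β] [DecidableEq β] [Fintype I] [DecidableEq I] [Fintype Ar]
  [DecidableEq Ar] [Fintype τ] [DecidableEq τ] [DecidableEq Λ] [DecidableEq Λ'] (D : HD β I Ar τ)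

variable {th : I → ℤ} {key : (I → ℕ) → ℤ} {G : Gam Ar → Bool} {sl : β → Λ} {p q : Finset β}
  {a : Matrix β β ℂ} {P : Set (UU β Ar)}

theorem Key_mem_Vq {z : β → ℂ} : z ∈ (Vq q : Submodule ℂ (β → ℂ)) ↔ ∀ k, k ∉ q → z k = 0 := by
  simp [Vq, Submodule.mem_pi]

theorem Key_Vq_mono (h : q ⊆ p) : (Vq q : Submodule ℂ (β → ℂ)) ≤ Vq p := fun _ hz =>
  Key_mem_Vq.2 fun k hk => Key_mem_Vq.1 hz k fun h' => hk (h h')

theorem Key_inv_sup {x : UU β Ar} {S S' : Submodule ℂ (β → ℂ)} (hi : InvAll x S)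
    (hi' : InvAll x S') : InvAll x (S ⊔ S') := fun γ z hz => by
  obtain ⟨y, hy, y', hy', rfl⟩ := Submodule.mem_sup.1 hz
  rw [Matrix.mulVec_add]
  exact Submodule.add_mem_sup (hi γ y hy) (hi' γ y' hy')

theorem Key_dg_aeval {M : Matrix β β ℂ} (hM : Basic_Tri q M) (f : Polynomial ℂ) :
    Polynomial.aeval (Basic_dg q M) f = Basic_dg q (Polynomial.aeval M f) := by
  induction f using Polynomial.induction_on' with
  | add f g hf hg =>
    rw [map_add, map_add, hf, hg]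
    ext l k
    simp only [Basic_dg, Matrix.of_apply, Matrix.add_apply]
    split_ifs <;> simp
  | monomial n c =>
    rw [Polynomial.aeval_monomial, Polynomial.aeval_monomial, ← Basic_dg_pow hM,
      ← Algebra.smul_def, ← Algebra.smul_def]
    ext l k
    simp only [Basic_dg, Matrix.of_apply, Matrix.smul_apply]
    split_ifs <;> simp

/-- The invariant subspace of maximal key is unique (use sum and intersection). -/
theorem uniq (hk : D.IsKey th key) {x : UU β Ar} {κ : ℤ} (hx : x ∈ D.Ole key p κ)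
    {S S' : Submodule ℂ (β → ℂ)} (hS : D.Gr S) (hS' : D.Gr S') (hl : S ≤ Vq p) (hl' : S' ≤ Vq p)
    (hi : InvAll x S) (hi' : InvAll x S') (hκ : key (D.dimS S) = κ) (hκ' : key (D.dimS S') = κ) :
    S = S' := by
  have hb : ∀ {T : Submodule ℂ (β → ℂ)}, T ≤ Vq p → D.dimS T ≤ D.dimv Finset.univ := fun h =>
    (D.dimS_le_dimv h).trans (D.dimv_le p)
  have he : D.dimS S = D.dimS S' := hk.inj _ (hb hl) _ (hb hl') (hκ.trans hκ'.symm)
  have hsl : S ⊔ S' ≤ Vq p := sup_le hl hl'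
  have hil : S ⊓ S' ≤ Vq p := inf_le_left.trans hl
  have h1 := hx _ (hS.sup hS') hsl (Key_inv_sup hi hi')
  have h2 := hx _ (hS.inf hS') hil fun γ z hz => ⟨hi γ z hz.1, hi' γ z hz.2⟩
  rw [← hκ] at h1 h2
  have h3 : thd th (D.dimS (S ⊔ S')) ≤ thd th (D.dimS S) :=
    not_lt.1 fun h => absurd (hk.mono _ (hb hl) _ (hb hsl) h) (not_lt.2 h1)
  have h4 : thd th (D.dimS (S ⊓ S')) ≤ thd th (D.dimS S) :=
    not_lt.1 fun h => absurd (hk.mono _ (hb hl) _ (hb hil) h) (not_lt.2 h2)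
  have h5 := congrArg (thd th) (hS.dimS_sup_add_inf hS')
  rw [thd_add, thd_add, ← he] at h5
  have h6 : D.dimS (S ⊓ S') = D.dimS S := by
    by_contra hne
    have hle : D.dimS (S ⊓ S') ≤ D.dimS S := D.dimS_mono inf_le_left
    obtain ⟨i, hi⟩ := Function.ne_iff.1 hne
    exact absurd (hk.size _ (hb hl) _ (hb hil) (by linarith)
      (Finset.sum_lt_sum (fun j _ => hle j) ⟨i, Finset.mem_univ i, lt_of_le_of_ne (hle i) hi⟩))
      (not_lt.2 h2)
  exact ((hS.inf hS').eq_of_dimS hS inf_le_left h6).symm.trans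
    ((hS.inf hS').eq_of_dimS hS' inf_le_right (h6.trans he))

/-- Splitting along an invariant coordinate subspace (`split_inv`, `lift_inv`, `IsKey.num`,
`IsKey.split`). -/
theorem split_iff (hk : D.IsKey th key) (hp : IsSlot sl p) (hq : q ⊆ p)
    (h : D.last key p < key (D.dimv q)) {x : UU β Ar} (hx : x ∈ LinS co (D.PP sl q)) :
    x ∈ D.Ole key p (key (D.dimv q)) ↔
      trunc (D.PU (spl sl q)) x ∈ D.Ole key q (D.last key q) ∧
      trunc (D.PU (spl sl q)) x ∈ D.Ole key (p \ q) (D.last key (p \ q)) := by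
  obtain ⟨-, -, -, -, e1, e2⟩ := hk.split hq h
  rw [e1, e2]
  have hb : ∀ {T : Submodule ℂ (β → ℂ)} {r : Finset β}, T ≤ Vq r →
      D.dimS T ≤ D.dimv Finset.univ := fun h => (D.dimS_le_dimv h).trans (D.dimv_le _)
  refine ⟨fun h1 => ⟨fun S hS hl hi => ?_, fun S hS hl hi => ?_⟩, fun h1 S hS hl hi => ?_⟩
  · exact h1 S hS (hl.trans (Key_Vq_mono hq)) fun γ => ((D.lift_inv hp hq hx γ).1 hl).1 (hi γ)
  · have hsl : Vq q ⊔ S ≤ Vq p :=
      sup_le (Key_Vq_mono hq) (hl.trans (Key_Vq_mono Finset.sdiff_subset))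
    have h2 := h1 _ ((D.gr_Vq q).sup hS) hsl fun γ => (D.lift_inv hp hq hx γ).2.1 hl (hi γ)
    have h3 := hb hsl
    rw [D.dimS_Vq_sup hS hl] at h2 h3
    refine (hk.le_zero_iff (hb hl)).2 (not_lt.1 fun h4 => ?_)
    exact absurd (hk.mono _ (D.dimv_le q) _ h3 (by rw [thd_add]; linarith)) (not_lt.2 h2)
  · obtain ⟨S₂, g1, g2, g3, g4⟩ := D.split_inv hp hq hx hS hl
    have h2 := h1.1 _ (hS.inf (D.gr_Vq q)) inf_le_right fun γ => (g4 γ (hi γ)).1
    have h3 := h1.2 _ g1 g2 fun γ => (g4 γ (hi γ)).2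
    have h4 := hb hl
    rw [g3] at h4 ⊢
    exact (hk.num (D.dimv_le q) h4 (D.dimS_le_dimv inf_le_right) h2
      ((hk.le_zero_iff (hb g2)).1 h3)).1

theorem ole_univ (hk : D.IsKey th key) (h0 : thd th (D.dimv Finset.univ) = 0) :
    D.Ole key Finset.univ (D.last key Finset.univ) = D.SS th := by
  have e : D.last key Finset.univ = key 0 := max_eq_left ((hk.le_zero_iff le_rfl).2 h0.le)
  have hl : ∀ S : Submodule ℂ (β → ℂ), S ≤ Vq Finset.univ := fun S => by
    rw [Vq_univ]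
    exact le_top
  rw [e]
  ext x
  exact ⟨fun h S hS hi => (hk.le_zero_iff (D.dimS_le_dimv (hl S))).1 (h S hS (hl S) hi),
    fun h S hS hl hi => (hk.le_zero_iff (D.dimS_le_dimv hl)).2 (h S hS hi)⟩

theorem sat_Ole (h : Disjoint p q) (key : (I → ℕ) → ℤ) (κ : ℤ) : Sat q (D.Ole key p κ) := by
  intro x y hxy hx S hS hl hi
  refine hx S hS hl fun γ z hz => ?_
  have e : (x γ).mulVec z = (y γ).mulVec z := by
    funext l
    refine Finset.sum_congr rfl fun k _ => ?_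
    change x γ l k * z k = y γ l k * z k
    by_cases hk : k ∈ p
    · rw [hxy γ l k (Finset.disjoint_left.1 h hk)]
    · rw [Key_mem_Vq.1 (hl hz) k hk, mul_zero, mul_zero]
  rw [e]
  exact hi γ z hz

theorem sat_OM (h : Disjoint p q) (G : Gam Ar → Bool) (key : (I → ℕ) → ℤ) (κ : ℤ) :
    Sat q (D.OM G key p κ) := by
  intro x y hxy hx
  refine D.sat_Ole h key κ (cut G x) (cut G y) (fun γ l k hk => ?_) hx
  unfold cut
  split_ifs
  · exact hxy γ l k hk
  · rfl

theorem exists_key_bound (key : (I → ℕ) → ℤ) :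
    ∃ κ₀ : ℤ, ∀ (p : Finset β) (κ : ℤ), κ₀ ≤ κ → D.Ole key p κ = univ := by
  obtain ⟨κ₀, h⟩ := ((Set.finite_Iic (D.dimv Finset.univ)).image key).bddAbove
  refine ⟨κ₀, fun p κ hκ => eq_univ_of_forall fun x S _ hl _ => le_trans (h ?_) hκ⟩
  exact mem_image_of_mem key ((D.dimS_le_dimv hl).trans (D.dimv_le p))

/-- The mode passes to the block diagonal part. -/
theorem mode_trunc {x : UU β Ar} (hx : x ∈ LinS co (D.PP sl q)) (hm : D.Mode G (x none)) :
    D.Mode G (trunc (D.PU (spl sl q)) x none) := by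
  rcases hm with hm | ⟨h1, h2, f, h3, h4⟩
  · exact Or.inl hm
  obtain ⟨ht, he⟩ := D.Basic_tri_PP hx none
  refine Or.inr ⟨h1, h2, f, fun l k => ?_, h4⟩
  rw [he, Key_dg_aeval ht, Basic_dg, Matrix.of_apply, h3, ite_self]

end HD

end Pool.Agent.HK
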