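import Pool.Agent.P.MP_1206ce_ag.LV.Key

/-! The strata that split. -/

open scoped Topology
open Filter Set

set_option linter.unusedSectionVars false

noncomputable section

namespace Pool.Agent.HK

namespace HD

variable {β I Ar τ Λ Λ' : Type} [Fintype β] [DecidableEq β] [Fintype I] [DecidableEq I] [Fintype Ar]
  [DecidableEq Ar] [Fintype τ] [DecidableEq τ] [DecidableEq Λ] [DecidableEq Λ'] (D : HD β I Ar τ)

variable {th : I → ℤ} {key : (I → ℕ) → ℤ} {G : Gam Ar → Bool} {sl : β → Λ} {p q : Finset β}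
  {a : Matrix β β ℂ} {P : Set (UU β Ar)}

theorem Spl_sat_mono (hq : q ⊆ p) (hs : Sat p P) : Sat q P :=
  fun x y h hx => hs x y (fun γ l k hk => h γ l k fun h' => hk (hq h')) hx

theorem Spl_sat_inter {P' : Set (UU β Ar)} (hs : Sat p P) (hs' : Sat p P') : Sat p (P ∩ P') :=
  fun x y h hx => ⟨hs x y h hx.1, hs' x y h hx.2⟩

theorem Spl_lc_open {Y : Type} [TopologicalSpace Y] [T2Space Y] {A O : Set Y} (hA : LC A)
    (hO : IsOpen O) : LC (A ∩ O) := hA.openIn ⟨O, hO, rfl⟩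

theorem Spl_lc_closed {Y : Type} [TopologicalSpace Y] {A F : Set Y} (hA : LC A)
    (hF : IsClosed F) : LC (A ∩ F) := hA.closedIn ⟨F, hF, rfl⟩

theorem Spl_col (hp : IsSlot sl p) (hq : q ⊆ p) {x : UU β Ar} (hx : x ∈ D.U sl) (γ : Gam Ar)
    (l k : β) (hk : k ∉ p) : x γ l k = trunc (D.PU (spl sl q)) x γ l k := by
  by_cases h0 : x γ l k = 0
  · simp [trunc, h0]
  · obtain ⟨j, rfl⟩ := hp
    have h1 := D.mem_U.1 hx γ l k h0
    have hl : l ∉ q := fun h => hk (Finset.mem_filter.2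
      ⟨Finset.mem_univ _, h1.2.symm.trans (Finset.mem_filter.1 (hq h)).2⟩)
    have hk' : k ∉ q := fun h => hk (hq h)
    have h2 : (γ, l, k) ∈ D.PU (spl sl q) := by
      simp [PU, spl, h1.1, h1.2, hl, hk']
    simp [trunc, h2]

theorem Spl_iff (hk : D.IsKey th key) (hp : IsSlot sl p) (hq : q ⊆ p)
    (h : D.last key p < key (D.dimv q)) (hs : Sat p P) {x : UU β Ar}
    (hx : x ∈ LinS co (D.PP sl q)) :
    (x ∈ P ↔ trunc (D.PU (spl sl q)) x ∈ P) ∧
    (x ∈ D.OM G key p (key (D.dimv q)) ↔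
      trunc (D.PU (spl sl q)) x ∈ D.OM G key q (D.last key q) ∧
      trunc (D.PU (spl sl q)) x ∈ D.OM G key (p \ q) (D.last key (p \ q))) := by
  have hU := (D.mem_PP.1 hx).1
  refine ⟨⟨hs _ _ (D.Spl_col hp hq hU), hs _ _ fun γ l k hk => (D.Spl_col hp hq hU γ l k hk).symm⟩,
    ?_⟩
  simp only [OM, mem_preimage, cut_trunc]
  exact D.split_iff hk hp hq h (cut_mem_LinS G hx)

theorem Spl_target (hq : q ⊆ p) (hm : D.Mode G a) (hs : Sat p P) (hP : LC P)
    (h1 : D.LV G key (spl sl q) q) (h2 : D.LV G key (spl sl q) (p \ q)) :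
    Subsingleton (Hc (D.Bs (spl sl q) a P ∩
      ((D.Ole key q (D.last key q) ∩ D.Ole key (p \ q) (D.last key (p \ q))) \
        (D.OM G key q (D.last key q) ∩ D.OM G key (p \ q) (D.last key (p \ q)))))) := by
  have hd : Disjoint q (p \ q) := Finset.disjoint_sdiff
  have k1 := h1 a (P ∩ D.Ole key (p \ q) (D.last key (p \ q))) hm
    (Spl_sat_inter (Spl_sat_mono hq hs) (D.sat_Ole hd.symm key _))
    (Spl_lc_open hP (D.isOpen_Ole key _ _))
  have k2 := h2 a (P ∩ D.OM G key q (D.last key q)) hm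
    (Spl_sat_inter (Spl_sat_mono Finset.sdiff_subset hs) (D.sat_OM hd G key _))
    (Spl_lc_open hP (D.isOpen_OM G key _ _))
  refine subsingleton_total ?_ ⟨(D.OM G key q (D.last key q))ᶜ,
    (D.isOpen_OM G key _ _).isClosed_compl, ?_⟩ ?_ k2 k1
  · rw [sdiff_eq, ← inter_assoc]
    exact Spl_lc_closed (Spl_lc_open (D.lc_Bs _ a hP)
      ((D.isOpen_Ole key _ _).inter (D.isOpen_Ole key _ _)))
      ((D.isOpen_OM G key _ _).inter (D.isOpen_OM G key _ _)).isClosed_compl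
  · ext x
    simp only [Bs, mem_inter_iff, Set.mem_sdiff, mem_ofPred_eq, mem_compl_iff]
    tauto
  · ext x
    have := @D.OM_subset _ _ _ _ _ _ _ _ _ _ _ _ G key q (D.last key q) x
    simp only [Bs, mem_inter_iff, Set.mem_sdiff, mem_ofPred_eq]
    tauto

/-- Fibre over `x - trunc x`; a nonempty fibre is homeomorphic, by `trunc`, to a set with closed
part as in `h1` and open part as in `h2`. -/
theorem spl_vanish (hk : D.IsKey th key) (hp : IsSlot sl p) (hq : q ⊆ p)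
    (h : D.last key p < key (D.dimv q)) (hm : D.Mode G a) (hs : Sat p P) (hP : LC P)
    (h1 : D.LV G key (spl sl q) q) (h2 : D.LV G key (spl sl q) (p \ q)) :
    Subsingleton (Hc (D.Bs sl a P ∩ {x | x ∈ D.Ole key p (key (D.dimv q)) ∧
      x ∉ D.OM G key p (key (D.dimv q)) ∧ InvAll x (Vq q)})) := by
  refine vanish (f := fun x => x - trunc (D.PU (spl sl q)) x) ?_
    (continuous_id.sub (continuous_trunc _)).continuousOn fun o => ?_
  · have e : {x | x ∈ D.Ole key p (key (D.dimv q)) ∧ x ∉ D.OM G key p (key (D.dimv q)) ∧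
        InvAll x (Vq q)} = D.Ole key p (key (D.dimv q)) ∩
          ((D.OM G key p (key (D.dimv q)))ᶜ ∩ {x | InvAll x (Vq q)}) := rfl
    rw [e, ← inter_assoc]
    exact Spl_lc_closed (Spl_lc_open (D.lc_Bs _ a hP) (D.isOpen_Ole key _ _))
      ((D.isOpen_OM G key _ _).isClosed_compl.inter (isClosed_invAll _))
  rcases eq_empty_or_nonempty ((D.Bs sl a P ∩ {x | x ∈ D.Ole key p (key (D.dimv q)) ∧
      x ∉ D.OM G key p (key (D.dimv q)) ∧ InvAll x (Vq q)}) ∩
      (fun x => x - trunc (D.PU (spl sl q)) x) ⁻¹' {o}) with he | ⟨x₀, hx₀⟩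
  · rw [he]
    infer_instance
  have hPP₀ : x₀ ∈ LinS co (D.PP sl q) := D.mem_PP.2 ⟨hx₀.1.1.1, hx₀.1.2.2.2⟩
  have ha₀ : x₀ none = a := hx₀.1.1.2.1
  have ho : x₀ - trunc (D.PU (spl sl q)) x₀ = o := hx₀.2
  have hm' : D.Mode G (trunc (D.PU (spl sl q)) x₀ none) := D.mode_trunc hPP₀ (ha₀ ▸ hm)
  have hco : ∀ i, co o i = if i ∈ D.PU (spl sl q) then 0 else co x₀ i := by
    intro i
    have : co o i = co x₀ i - co (trunc (D.PU (spl sl q)) x₀) i := by
      rw [← ho]
      rfl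
    rw [this, co_trunc]
    split_ifs <;> simp
  have htr : ∀ y ∈ D.U (spl sl q), trunc (D.PU (spl sl q)) (y + o) = y := by
    intro y hy
    refine Basic_ext fun i => ?_
    rw [co_trunc, Basic_co_add, hco]
    split_ifs with hi
    · rw [add_zero]
    · rw [hy i hi]
  have hPP : ∀ y ∈ D.U (spl sl q), y + o ∈ LinS co (D.PP sl q) := by
    intro y hy i hi
    have hi' : i ∉ D.PU (spl sl q) := fun h' => hi (D.PU_spl_subset q h')
    rw [Basic_co_add, hco, if_neg hi', hy i hi', hPP₀ i hi, add_zero]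
  refine HomeoOn.subsingleton (f := trunc (D.PU (spl sl q))) (g := fun y => y + o)
    ⟨(continuous_trunc _).continuousOn, (continuous_id.add continuous_const).continuousOn,
      fun x hx => ?_, fun y hy => ?_, fun x hx => ?_, fun y hy => htr y hy.1.1⟩
    (D.Spl_target hq hm' hs hP h1 h2)
  · have hx1 : x ∈ LinS co (D.PP sl q) := D.mem_PP.2 ⟨hx.1.1.1, hx.1.2.2.2⟩
    obtain ⟨e1, e2⟩ := D.Spl_iff (G := G) hk hp hq h hs hx1
    refine ⟨⟨fun i hi => by rw [co_trunc, if_neg hi], ?_, e1.1 hx.1.1.2.2.1, ?_⟩,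
      (D.split_iff hk hp hq h hx1).1 hx.1.2.1, fun h' => hx.1.2.2.1 (e2.2 h')⟩
    · have : x none = x₀ none := hx.1.1.2.1.trans ha₀.symm
      simp only [trunc, this]
    · rw [D.Wf_trunc_PP hx1]
      exact hx.1.1.2.2.2
  · have hy1 := hPP y hy.1.1
    have hy2 := htr y hy.1.1
    obtain ⟨e1, e2⟩ := D.Spl_iff (G := G) hk hp hq h hs hy1
    have e3 := D.split_iff hk hp hq h hy1
    have e4 := D.Wf_trunc_PP hy1
    rw [hy2] at e1 e2 e3 e4
    refine ⟨⟨⟨(D.mem_PP.1 hy1).1, ?_, e1.2 hy.1.2.2.1, ?_⟩, e3.2 hy.2.1,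
      fun h' => hy.2.2 (e2.1 h'), (D.mem_PP.1 hy1).2⟩, ?_⟩
    · show y none + o none = a
      rw [hy.1.2.1, ← ho, ← ha₀]
      exact add_sub_cancel _ _
    · rw [← e4]
      exact hy.1.2.2.2
    · show y + o - trunc (D.PU (spl sl q)) (y + o) = o
      rw [hy2, add_sub_cancel_left]
  · have : x - trunc (D.PU (spl sl q)) x = o := hx.2
    show trunc (D.PU (spl sl q)) x + o = x
    rw [← this, add_sub_cancel]

end HD

end Pool.Agent.HK
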