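import Pool.Agent.P.MP_1206ce_ag.LV.Fib
import Pool.Agent.P.MP_1206ce_ag.LV.Aff
import Pool.Agent.P.MP_1206ce_ag.LV.Spl

/-! Lemma V. -/

open scoped Topology
open Filter Set

set_option linter.unusedSectionVars false

noncomputable section

namespace Pool.Agent.HK

namespace HD

variable {β I Ar τ Λ Λ' : Type} [Fintype β] [DecidableEq β] [Fintype I] [DecidableEq I] [Fintype Ar]
  [DecidableEq Ar] [Fintype τ] [DecidableEq τ] [DecidableEq Λ] [DecidableEq Λ'] (D : HD β I Ar τ)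

variable {th : I → ℤ} {key : (I → ℕ) → ℤ} {G : Gam Ar → Bool} {sl : β → Λ} {p q : Finset β}
  {a : Matrix β β ℂ} {P : Set (UU β Ar)}

theorem Main_lc (hP : LC P) (κ : ℤ) : LC (D.Bs sl a P ∩ (D.Ole key p κ \ D.OM G key p κ)) :=
  ((D.lc_Bs sl a hP).openIn ⟨_, D.isOpen_Ole key p κ, rfl⟩).closedIn
    ⟨_, (D.isOpen_OM G key p κ).isClosed_compl, (inter_assoc _ _ _).symm⟩

theorem Main_step (hk : D.IsKey th key) (hp : IsSlot sl p)
    (ih : ∀ q ⊆ p, D.last key p < key (D.dimv q) →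
      D.LV G key (spl sl q) q ∧ D.LV G key (spl sl q) (p \ q))
    (hm : D.Mode G a) (hs : Sat p P) (hP : LC P) {κ : ℤ} (hκ : D.last key p < κ)
    (hE : Subsingleton (Hc (D.Bs sl a P ∩ (D.Ole key p κ \ D.OM G key p κ)))) :
    Subsingleton (Hc (D.Bs sl a P ∩ (D.Ole key p (κ - 1) \ D.OM G key p (κ - 1)))) := by
  have cM : ClosedIn (D.Bs sl a P ∩ (D.Ole key p κ \ D.OM G key p κ) ∩ (D.Ole key p (κ - 1))ᶜ)
      (D.Bs sl a P ∩ (D.Ole key p κ \ D.OM G key p κ)) :=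
    ⟨_, (D.isOpen_Ole key p (κ - 1)).isClosed_compl, rfl⟩
  have hM : Subsingleton
      (Hc (D.Bs sl a P ∩ (D.Ole key p κ \ D.OM G key p κ) ∩ (D.Ole key p (κ - 1))ᶜ)) := by
    refine D.fib hk hp (κ := κ) ((D.Main_lc hP κ).closedIn cM) continuous_id
      (fun x hx => ⟨hx.1.2.1, hx.2⟩) fun S hS hle hSκ => ?_
    obtain ⟨q, hq, hd⟩ := D.exists_dimv (D.dimS_le_dimv hle)
    obtain ⟨a', P', c, hm', hs', hP', c1, c2, c3, c4⟩ := D.conj hp hq hS hle hd.symm hm hs hP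
    have hqκ : key (D.dimv q) = κ := by rw [hd, hSκ]
    have hl : D.last key p < key (D.dimv q) := hqκ ▸ hκ
    have := c4 _ (D.spl_vanish hk hp hq hl hm' hs' hP' (ih q hq hl).1 (ih q hq hl).2)
    convert this using 2
    ext x
    simp only [hqκ, OM, mem_inter_iff, mem_preimage, mem_ofPred_eq, Set.mem_sdiff, mem_compl_iff, c1,
      c2, c3, id]
    constructor
    · rintro ⟨⟨⟨h1, h2, h3⟩, -⟩, h5⟩
      exact ⟨h1, h2, h3, h5⟩
    · rintro ⟨h1, h2, h3, h5⟩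
      refine ⟨⟨⟨h1, h2, h3⟩, fun h => ?_⟩, h5⟩
      have := h S hS hle h5
      omega
  have oN : OpenIn
      (D.Bs sl a P ∩ (D.Ole key p (κ - 1) \ D.OM G key p (κ - 1)) ∩ D.OM G key p κ)
      (D.Bs sl a P ∩ (D.Ole key p (κ - 1) \ D.OM G key p (κ - 1))) :=
    ⟨_, D.isOpen_OM G key p κ, rfl⟩
  have hN : Subsingleton (Hc
      (D.Bs sl a P ∩ (D.Ole key p (κ - 1) \ D.OM G key p (κ - 1)) ∩ D.OM G key p κ)) := by
    refine D.fib hk hp (κ := κ) ((D.Main_lc hP (κ - 1)).openIn oN) (continuous_cut G)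
      (fun x hx => ⟨hx.2, hx.1.2.2⟩) fun S hS hle hSκ => ?_
    obtain ⟨q, hq, hd⟩ := D.exists_dimv (D.dimS_le_dimv hle)
    obtain ⟨a', P', c, hm', hs', hP', c1, c2, c3, c4⟩ := D.conj hp hq hS hle hd.symm hm hs hP
    have hqκ : key (D.dimv q) = κ := by rw [hd, hSκ]
    have hl : D.last key p < key (D.dimv q) := hqκ ▸ hκ
    have := c4 _ (D.aff hk hp hq hl hm' hs' hP')
    convert this using 2
    ext x
    simp only [hqκ, OM, mem_inter_iff, mem_preimage, mem_ofPred_eq, Set.mem_sdiff, c1, c2, c3]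
    constructor
    · rintro ⟨⟨⟨h1, h2, -⟩, h4⟩, h5⟩
      exact ⟨h1, h2, h4, h5⟩
    · rintro ⟨h1, h2, h4, h5⟩
      refine ⟨⟨⟨h1, h2, fun h => ?_⟩, h4⟩, h5⟩
      have := h S hS hle h5
      omega
  have h1 := subsingleton_open (D.Main_lc hP κ) cM rfl hE hM
  have sub : D.OM G key p (κ - 1) ⊆ D.OM G key p κ := fun x hx => D.Ole_mono key p (by omega) hx
  refine subsingleton_total (D.Main_lc hP (κ - 1)) oN.diff (Set.ext fun x => ?_) hN ?_
  · exact ⟨fun h => ⟨h.1, fun h' => h'.2 h⟩, fun h => by_contra fun h' => h.2 ⟨h.1, h'⟩⟩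
  · convert h1 using 2
    ext x
    constructor
    · rintro ⟨⟨h1, h2, h3⟩, h4⟩
      exact ⟨⟨h1, D.Ole_mono key p (by omega) h2, fun h => h4 ⟨⟨h1, h2, h3⟩, h⟩⟩,
        fun h => h.2 h2⟩
    · rintro ⟨⟨h1, h2, h3⟩, h4⟩
      have h5 : x ∈ D.Ole key p (κ - 1) := by_contra fun h => h4 ⟨⟨h1, h2, h3⟩, h⟩
      exact ⟨⟨h1, h5, fun h => h3 (sub h)⟩, fun h => h3 h.2⟩

theorem Main_ind (hk : D.IsKey th key) (n : ℕ) : ∀ (Λ : Type) [DecidableEq Λ] (sl : β → Λ)
    (p : Finset β), p.card ≤ n → IsSlot sl p → D.LV G key sl p := by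
  induction n using Nat.strong_induction_on with
  | _ n ihn =>
  intro Λ _ sl p hn hp a P hm hs hP
  have ih : ∀ q ⊆ p, D.last key p < key (D.dimv q) →
      D.LV G key (spl sl q) q ∧ D.LV G key (spl sl q) (p \ q) := fun q hq hl => by
    obtain ⟨-, -, n1, n2, -, -⟩ := hk.split hq hl
    obtain ⟨s1, s2, -⟩ := hp.spl hq n1
    have c := Finset.card_sdiff_add_card_eq_card hq
    have c1 := n1.card_pos
    have c2 := n2.card_pos
    exact ⟨ihn q.card (by omega) _ _ q le_rfl s1, ihn (p \ q).card (by omega) _ _ _ le_rfl s2⟩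
  obtain ⟨κ₀, hκ₀⟩ := D.exists_key_bound key
  have all : ∀ m : ℕ, ∀ κ : ℤ, D.last key p ≤ κ → κ₀ ≤ κ + m →
      Subsingleton (Hc (D.Bs sl a P ∩ (D.Ole key p κ \ D.OM G key p κ))) := by
    intro m
    induction m with
    | zero =>
      intro κ _ h2
      have : D.OM G key p κ = univ := by rw [OM, hκ₀ p κ (by simpa using h2), preimage_univ]
      rw [this, sdiff_univ, inter_empty]
      infer_instance
    | succ m ihm =>
      intro κ h1 h2
      have := D.Main_step hk hp ih hm hs hP (κ := κ + 1) (by omega)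
        (ihm (κ + 1) (by omega) (by push_cast at h2; omega))
      rwa [add_sub_cancel_right] at this
  exact all (κ₀ - D.last key p).toNat _ le_rfl (by omega)

theorem lemV (hk : D.IsKey th key) (hp : IsSlot sl p) : D.LV G key sl p :=
  D.Main_ind hk p.card Λ sl p le_rfl hp

theorem lemV_one (h0 : thd th (D.dimv Finset.univ) = 0) (hm : D.Mode G a) :
    Subsingleton (Hc (D.Bs (one β) a univ ∩ (D.SS th \ cut G ⁻¹' D.SS th))) := by
  obtain ⟨key, hk⟩ := D.exists_key th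
  have := D.lemV (G := G) (sl := one β) (p := Finset.univ) hk ⟨(), by simp⟩ a univ hm
    (fun _ _ _ _ => trivial) LC.univ
  rwa [OM, D.ole_univ hk h0] at this

end HD

end Pool.Agent.HK
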